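import Mathlib
import Pool.Agent.H436R3.Fol.Defs

/-!
# Varieties of klt type and flat families

Prime divisors on normal birational models are given by their valuations `DVal`, see
`Pool.Agent.H436R3.Fol.Defs`.
-/

set_option autoImplicit false

namespace Pool.Agent.H436R3.KT

open Pool.Agent.H436R3.Fol

variable {K : Type} [Field K] [Algebra ℂ K]

/-- An affine variety `X = Spec R` over `ℂ` with function field `K`, with a basis `T_1, ..., T_d` of
the space of rational vector fields. The canonical divisor `K_X` is the divisor of the rational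
`d`-form `ω` with `ω (T_1, ..., T_d) = 1`; its order at a prime divisor `v` over `X` is the number
`a` with `IsCanOrd T v a`. -/
structure AffVar (K : Type) [Field K] [Algebra ℂ K] where
  R : Subalgebra ℂ K
  fg : R.FG
  frac : ∀ f : K, ∃ a b : K, a ∈ R ∧ b ∈ R ∧ b ≠ 0 ∧ f * b = a
  d : ℕ
  T : Foliation K d
  top : T.space = ⊤

/-- `X` is normal. -/
def IsNormal (X : AffVar K) : Prop := ∀ f : K, IsIntegral X.R f → f ∈ X.R

/-- A closed point of `X`. -/
abbrev Pt (X : AffVar K) : Type := X.R →ₐ[ℂ] ℂ

variable {X : AffVar K}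

/-- `v` is the valuation of a prime divisor on `X` that contains the closed point `P`. -/
def OnAt (P : Pt X) (v : DVal K) : Prop :=
  IsLocalRing' X.R v ∧ ∀ f : X.R, v.Pos (f : K) → P f = 0

/-- `v` is the valuation of a prime divisor over `X`, that is, on some normal variety with a proper
birational morphism to `X`, whose centre on `X` contains the closed point `P`. -/
def OverAt (P : Pt X) (v : DVal K) : Prop :=
  (∃ S : Subalgebra ℂ K, S.FG ∧ X.R ≤ S ∧ IsLocalRing' S v) ∧
    ∀ f : X.R, v.Pos (f : K) → P f = 0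

/-- An effective `ℝ`-divisor `a_1 D_1 + ... + a_n D_n` on `X`: the `D_i` are prime divisors on `X`,
and the `a_i` are non-negative real numbers. -/
structure EffDiv (X : AffVar K) where
  n : ℕ
  D : Fin n → DVal K
  on : ∀ i, IsLocalRing' X.R (D i)
  a : Fin n → ℝ
  nonneg : ∀ i, 0 ≤ a i

open Classical in
/-- The multiplicity of the prime divisor `v` in the divisor `B`. -/
noncomputable def EffDiv.mult (B : EffDiv X) (v : DVal K) : ℝ :=
  ∑ i, if ∀ f : K, f ≠ 0 → v.ord f = (B.D i).ord f then B.a i else 0

/-- `K_X + B` is `ℝ`-Cartier at the closed point `P`, equal to `∑ ρ_i div (g_i)` near `P`, and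
`(X, B)` is klt at `P`: for all prime divisors `v` over `X` with centre through `P` the discrepancy,
the order of `K_X` at `v` minus the order at `v` of the pull-back of `K_X + B`, is bigger than
`-1`. -/
def IsKltAt (B : EffDiv X) (P : Pt X) : Prop :=
  ∃ (n : ℕ) (ρ : Fin n → ℝ) (g : Fin n → K), (∀ i, g i ≠ 0) ∧
    (∀ v, OnAt P v → ∃ a : ℤ, IsCanOrd X.T v a ∧
      (a : ℝ) + B.mult v = ∑ i, ρ i * (v.ord (g i) : ℝ)) ∧
    ∀ v, OverAt P v → ∃ a : ℤ, IsCanOrd X.T v a ∧
      -1 < (a : ℝ) - ∑ i, ρ i * (v.ord (g i) : ℝ)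

/-- `X` is of klt type: `X` is normal, and there is an effective `ℝ`-divisor `B` on `X` such that
`K_X + B` is `ℝ`-Cartier and `(X, B)` is klt. -/
def IsKltType (X : AffVar K) : Prop := IsNormal X ∧ ∃ B : EffDiv X, ∀ P : Pt X, IsKltAt B P

/-- A flat family of affine varieties over the affine line: a finitely generated algebra `A` with an
element `t` such that `A` is flat over `ℂ [t]`, and the variety `X c` is the fibre `t = c`, that is,
its coordinate ring is `A / (t - c)`. -/
structure FlatFamily (K : Type) [Field K] [Algebra ℂ K] where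
  A : Type
  ring : CommRing A
  alg : Algebra ℂ A
  fg : Algebra.FiniteType ℂ A
  t : A
  flat : (Polynomial.aeval t : Polynomial ℂ →ₐ[ℂ] A).toRingHom.Flat
  X : ℂ → AffVar K
  π : ∀ c, A →ₐ[ℂ] (X c).R
  surj : ∀ c, Function.Surjective (π c)
  ker : ∀ c, RingHom.ker (π c) = Ideal.span {t - algebraMap ℂ A c}

/-- A section of the family `F`: an algebra homomorphism `A → ℂ [t]` that maps `t` to `t`. -/
structure Sec (F : FlatFamily K) where
  σ : letI := F.ring; letI := F.alg; F.A →ₐ[ℂ] Polynomial ℂ
  map_t : letI := F.ring; letI := F.alg; σ F.t = Polynomial.X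

/-- The closed point `P` of the fibre `t = c` is the value of the section at `c`. -/
def Sec.At {F : FlatFamily K} (s : Sec F) (c : ℂ) (P : Pt (F.X c)) : Prop :=
  letI := F.ring; letI := F.alg; ∀ a : F.A, P (F.π c a) = (s.σ a).eval c

end Pool.Agent.H436R3.KT
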