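import Mathlib
import Pool.Agent.H436R3.Can.Fols
import Pool.Agent.H436R3.Can.Weight
import Pool.Agent.H436R3.KT.Defs

/-!
# Monomial valuations
-/

set_option autoImplicit false

namespace Pool.Agent.H436R3.KT

open MvPolynomial Pool.Agent.H436R3.Fol Pool.Agent.H436R3.Can

theorem vX_le {i : Fin 3} {P : Q3} {m : Fin 3 →₀ ℕ} (hm : P.coeff m ≠ 0) :
    (vX i).ord (io P) ≤ m i := by
  have hP : P ≠ 0 := by
    rintro rfl
    exact hm (coeff_zero m)
  have h1 : (vX i).ord (io P) = (multiplicity (X i : Q3) P : ℤ) := valP_ord (prime_X i) hP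
  rw [h1]
  obtain ⟨Q, hQ⟩ := pow_multiplicity_dvd (X i : Q3) P
  rw [hQ, X_pow_eq_monomial, coeff_monomial_mul', ite_ne_right_iff] at hm
  have h2 := hm.1 i
  rw [Finsupp.single_eq_same] at h2
  exact_mod_cast h2

/-- The monomial valuation given by a pair of matrices. -/
noncomputable def vM (p : MP) (i : Fin 3) : DVal K3 := pl p.τ.symm (vX i)

theorem vM_mono (p : MP) (i : Fin 3) (e : Fin 3 → ℤ) : (vM p i).ord (mono e) = mulv e p.N i := by
  rw [vM, pl_ord, MP.τs_mono, ord_mono, vX_ord, vX_ord, vX_ord]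
  fin_cases i <;> simp

theorem vM_on (p : MP) (i : Fin 3) : IsLocalRing' (RR p.τ) (vM p i) :=
  push_divisor _ (valP_divisor _)

theorem mulv_inj (p : MP) {e e' : Fin 3 → ℤ} (h : ∀ k, mulv e p.N k = mulv e' p.N k) : e = e' := by
  have h1 : ∀ (e : Fin 3 → ℤ) (k : Fin 3), mulv (mulv e p.N) p.M k = e k := by
    intro e k
    have e0 := p.NM 0 k
    have e1 := p.NM 1 k
    have e2 := p.NM 2 k
    simp only [mulv, ev] at e0 e1 e2 ⊢
    have h3 : (e 0 * p.N 0 0 + e 1 * p.N 1 0 + e 2 * p.N 2 0) * p.M 0 k +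
        (e 0 * p.N 0 1 + e 1 * p.N 1 1 + e 2 * p.N 2 1) * p.M 1 k +
        (e 0 * p.N 0 2 + e 1 * p.N 1 2 + e 2 * p.N 2 2) * p.M 2 k =
        e 0 * (p.N 0 0 * p.M 0 k + p.N 0 1 * p.M 1 k + p.N 0 2 * p.M 2 k) +
        e 1 * (p.N 1 0 * p.M 0 k + p.N 1 1 * p.M 1 k + p.N 1 2 * p.M 2 k) +
        e 2 * (p.N 2 0 * p.M 0 k + p.N 2 1 * p.M 1 k + p.N 2 2 * p.M 2 k) := by ring
    rw [h3, e0, e1, e2]
    fin_cases k <;> simp
  funext k
  rw [← h1 e k, ← h1 e' k]
  simp only [mulv] at h ⊢
  rw [h 0, h 1, h 2]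

theorem exists_shift (p : MP) (P : Q3) : ∃ s : Fin 3 → ℤ, ∀ m ∈ P.support, ∀ k,
    0 ≤ mulv (fun l => (m l : ℤ)) p.N k + s k := by
  classical
  refine ⟨fun k => ∑ m ∈ P.support, |mulv (fun l => (m l : ℤ)) p.N k|, fun m hm k => ?_⟩
  have h1 : |mulv (fun l => (m l : ℤ)) p.N k| ≤
      ∑ m ∈ P.support, |mulv (fun l => (m l : ℤ)) p.N k| :=
    Finset.single_le_sum (f := fun m : Fin 3 →₀ ℕ => |mulv (fun l => (m l : ℤ)) p.N k|)
      (fun _ _ => abs_nonneg _) hm
  have h2 := neg_abs_le (mulv (fun l => (m l : ℤ)) p.N k)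
  simp only
  linarith

/-- The value of a monomial valuation at a polynomial is at most the value at each monomial. -/
theorem vM_le (p : MP) (i : Fin 3) {P : Q3} {m : Fin 3 →₀ ℕ} (hm : P.coeff m ≠ 0) :
    (vM p i).ord (io P) ≤ mulv (fun l => (m l : ℤ)) p.N i := by
  classical
  obtain ⟨s, hs⟩ := exists_shift p P
  have hP : io P ≠ 0 := (map_ne_zero_iff io io_inj).2 (by
    rintro rfl
    exact hm (coeff_zero m))
  let ε : (Fin 3 →₀ ℕ) → (Fin 3 →₀ ℕ) := fun m => Finsupp.equivFunOnFinite.symm fun k =>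
    (mulv (fun l => (m l : ℤ)) p.N k + s k).toNat
  have hε : ∀ m ∈ P.support, ∀ k, ((ε m k : ℕ) : ℤ) = mulv (fun l => (m l : ℤ)) p.N k + s k := by
    intro m hm k
    exact Int.toNat_of_nonneg (hs m hm k)
  let P' : Q3 := ∑ m ∈ P.support, monomial (ε m) (P.coeff m)
  have h1 : io P' = mono s * p.τ.symm (io P) := by
    have h2 : io P = ∑ m ∈ P.support, io (monomial m (P.coeff m)) := by
      conv_lhs => rw [P.as_sum]
      rw [map_sum]
    rw [h2, map_sum, map_sum, Finset.mul_sum]
    refine Finset.sum_congr rfl fun m hm => ?_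
    rw [io_mono, io_mono, map_mul, AlgEquiv.commutes, MP.τs_mono, mul_left_comm, ← mono_add]
    congr 1
    apply mono_congr
    intro k
    rw [hε m hm k, Pi.add_apply]
    ring
  have h3 : P'.coeff (ε m) = P.coeff m := by
    rw [coeff_sum]
    simp only [coeff_monomial]
    rw [Finset.sum_eq_single m]
    · rw [if_pos rfl]
    · intro m' hm' hne
      rw [if_neg]
      intro heq
      apply hne
      have h4 := mulv_inj p (e := fun l => (m' l : ℤ)) (e' := fun l => (m l : ℤ)) fun k => by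
        have h5 := hε m' hm' k
        have h6 := hε m (mem_support_iff.2 hm) k
        rw [heq] at h5
        rw [h6] at h5
        linarith
      ext k
      have h7 := congrFun h4 k
      exact_mod_cast h7
    · intro h
      exact absurd (mem_support_iff.2 hm) h
  have h4 := vX_le (i := i) (P := P') (m := ε m) (by rw [h3]; exact hm)
  rw [h1, (vX i).map_mul _ _ (mono_ne _) ((map_ne_zero _).2 hP), hε m (mem_support_iff.2 hm)] at h4
  have h5 : (vX i).ord (mono s) = s i := by
    rw [ord_mono, vX_ord, vX_ord, vX_ord]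
    fin_cases i <;> simp
  rw [h5] at h4
  have h6 : (vM p i).ord (io P) = (vX i).ord (p.τ.symm (io P)) := rfl
  rw [h6]
  linarith

/-- The order is at least `N`. -/
def Ge (v : DVal K3) (N : ℤ) (f : K3) : Prop := f = 0 ∨ N ≤ v.ord f

section Ge

variable {v : DVal K3} {N : ℤ}

theorem ge_zero (v : DVal K3) (N : ℤ) : Ge v N 0 := Or.inl rfl

theorem ge_add {f g : K3} (hf : Ge v N f) (hg : Ge v N g) : Ge v N (f + g) := by
  by_cases h1 : f = 0
  · rwa [h1, zero_add]
  by_cases h2 : g = 0
  · rwa [h2, add_zero]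
  by_cases h3 : f + g = 0
  · exact Or.inl h3
  right
  have h4 := v.map_add f g h1 h2 h3
  have := hf.resolve_left h1
  have := hg.resolve_left h2
  omega

theorem ge_mul {f g : K3} (hf : v.Reg f) (hg : Ge v N g) : Ge v N (f * g) := by
  by_cases h1 : f = 0
  · rw [h1, zero_mul]; exact ge_zero _ _
  by_cases h2 : g = 0
  · rw [h2, mul_zero]; exact ge_zero _ _
  right
  rw [v.map_mul f g h1 h2]
  have := hf.resolve_left h1
  have := hg.resolve_left h2
  omega

theorem ge_neg {f : K3} (hf : Ge v N f) : Ge v N (-f) := by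
  rw [neg_eq_neg_one_mul]
  exact ge_mul (v.reg_neg v.reg_one) hf

theorem ge_sub {f g : K3} (hf : Ge v N f) (hg : Ge v N g) : Ge v N (f - g) := by
  rw [sub_eq_add_neg]
  exact ge_add hf (ge_neg hg)

theorem ge_sum {ι : Type} {s : Finset ι} {u : ι → K3} (h : ∀ i ∈ s, Ge v N (u i)) :
    Ge v N (∑ i ∈ s, u i) := by
  classical
  induction s using Finset.induction_on with
  | empty => rw [Finset.sum_empty]; exact ge_zero _ _
  | insert a s ha ih =>
    rw [Finset.sum_insert ha]
    exact ge_add (h a (Finset.mem_insert_self _ _))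
      (ih fun i hi => h i (Finset.mem_insert_of_mem hi))

/-- Eigenvectors for different eigenvalues of a derivation that preserves the filtration. -/
theorem ge_eig (D : Derivation ℂ K3 K3) (hD : ∀ f, Ge v N f → Ge v N (D f)) (S : Finset ℤ) :
    ∀ u : ℤ → K3, (∀ n ∈ S, D (u n) = n * u n) → Ge v N (∑ n ∈ S, u n) →
      ∀ n ∈ S, Ge v N (u n) := by
  classical
  induction S using Finset.induction_on with
  | empty => intro u _ _ n hn; exact absurd hn (Finset.notMem_empty n)
  | insert a S ha ih =>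
    intro u hu h0
    have h1 := hD _ h0
    rw [Finset.sum_insert ha] at h0 h1
    rw [map_add, map_sum] at h1
    rw [hu a (Finset.mem_insert_self _ _)] at h1
    have h2 : Ge v N (∑ n ∈ S, ((n : K3) - a) * u n) := by
      have h3 : ∑ n ∈ S, D (u n) = ∑ n ∈ S, (n : K3) * u n :=
        Finset.sum_congr rfl fun n hn => hu n (Finset.mem_insert_of_mem hn)
      rw [h3] at h1
      have h4 : ∑ n ∈ S, ((n : K3) - a) * u n = ((a : K3) * u a + ∑ n ∈ S, (n : K3) * u n) -
          a * (u a + ∑ n ∈ S, u n) := by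
        simp only [sub_mul]
        rw [Finset.sum_sub_distrib, ← Finset.mul_sum]
        ring
      rw [h4]
      exact ge_sub h1 (ge_mul (v.reg_intCast a) h0)
    have h4 : ∀ n ∈ S, Ge v N (((n : K3) - a) * u n) := by
      refine ih (fun n => ((n : K3) - a) * u n) ?_ h2
      intro n hn
      have h5 : D ((n : K3) - a) = 0 := by
        have h6 : ((n : K3) - a) = algebraMap ℂ K3 ((n : ℂ) - a) := by
          rw [map_sub, map_intCast, map_intCast]
        rw [h6, Derivation.map_algebraMap]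
      rw [Derivation.leibniz, h5, smul_zero, add_zero, smul_eq_mul,
        hu n (Finset.mem_insert_of_mem hn)]
      ring
    have h5 : ∀ n ∈ S, Ge v N (u n) := by
      intro n hn
      have h6 : ((n : ℂ) - a) ≠ 0 := by
        rw [sub_ne_zero]
        intro h
        apply ha
        have : n = a := by exact_mod_cast h
        rwa [← this]
      have h7 : u n = algebraMap ℂ K3 (((n : ℂ) - a)⁻¹) * (((n : K3) - a) * u n) := by
        have h8 : ((n : K3) - a) = algebraMap ℂ K3 ((n : ℂ) - a) := by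
          rw [map_sub, map_intCast, map_intCast]
        rw [h8, ← mul_assoc, ← map_mul, inv_mul_cancel₀ h6, map_one, one_mul]
      rw [h7]
      exact ge_mul (v.reg_const _) (h4 n hn)
    intro n hn
    rcases Finset.mem_insert.1 hn with rfl | hn
    · have h6 : u n = (u n + ∑ k ∈ S, u k) - ∑ k ∈ S, u k := by ring
      rw [h6]
      exact ge_sub h0 (ge_sum h5)
    · exact h5 n hn

end Ge

/-- A derivation that preserves the valuation ring and kills a uniformiser preserves the
filtration. -/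
theorem ge_der {v : DVal K3} {D : Derivation ℂ K3 K3} (hD : Preserves v D) {π : K3} (hπ : π ≠ 0)
    (h1 : v.ord π = 1) (h0 : D π = 0) {N : ℤ} {f : K3} (hf : Ge v N f) : Ge v N (D f) := by
  by_cases hf0 : f = 0
  · rw [hf0, map_zero]
    exact ge_zero _ _
  have h2 := logDer_sub v hD hπ h1 hf0
  rw [h0, zero_div, mul_zero, sub_zero] at h2
  have h3 : D f = D f / f * f := by rw [div_mul_cancel₀ _ hf0]
  rw [h3]
  exact ge_mul h2 hf

end Pool.Agent.H436R3.KT
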