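import Mathlib
import Pool.Agent.H436R3.KT.Mon

/-!
# The valuations and the functional
-/

set_option autoImplicit false

namespace Pool.Agent.H436R3.KT

open MvPolynomial Pool.Agent.H436R3.Fol Pool.Agent.H436R3.Can

theorem ord_add_of_lt {K : Type} [Field K] [Algebra ℂ K] (v : DVal K) {f g : K} (hf : f ≠ 0)
    (hg : g ≠ 0) (h : v.ord f < v.ord g) : f + g ≠ 0 ∧ v.ord (f + g) = v.ord f := by
  have h0 : f + g ≠ 0 := by
    intro h1
    have h2 : g = -f := by linear_combination h1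
    rw [h2, v.ord_neg hf] at h
    exact lt_irrefl _ h
  refine ⟨h0, ?_⟩
  have h1 := v.map_add f g hf hg h0
  have h2 := v.map_add (f + g) (-g) h0 (neg_ne_zero.2 hg) (by rwa [add_neg_cancel_right])
  rw [add_neg_cancel_right, v.ord_neg hg] at h2
  omega

/-- The chart `ℂ [x, T² / q, T]`. -/
def pC : MP := ⟨![![1,0,0], ![0,-1,2], ![0,0,1]], ![![1,0,0], ![0,-1,2], ![0,0,1]],
  by decide +kernel, by decide +kernel⟩

/-- The chart `ℂ [1 / x, q, T]`. -/
def pι : MP := ⟨![![-1,0,0], ![0,1,0], ![0,0,1]], ![![-1,0,0], ![0,1,0], ![0,0,1]],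
  by decide +kernel, by decide +kernel⟩

/-- The order at the curve. -/
noncomputable def vC : DVal K3 := vM pC 2

theorem vC_mono (e : Fin 3 → ℤ) : vC.ord (mono e) = 2 * e 1 + e 2 := by
  rw [vC, vM_mono]
  simp [mulv, pC]
  ring

theorem vι_mono (e : Fin 3 → ℤ) : (vM pι 0).ord (mono e) = -e 0 := by
  rw [vM_mono]
  simp [mulv, pι]

/-- The images of the variables under the change of coordinates `y = x ^ 4 - q`. -/
noncomputable def gs : Fin 3 → K3 := ![vv 0, vv 0 ^ 4 - vv 1, vv 2]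

theorem gs_ind : AlgebraicIndependent ℂ gs := by
  apply Pool.Agent.H135R2.VS.algInd_of_der
  intro v
  refine ⟨(v 0 / vv 0) • th 0 + ((4 * vv 0 ^ 3 * v 0 - v 1) / vv 1) • th 1 + (v 2 / vv 2) • th 2,
    fun j => ?_⟩
  have h0 := vv_ne 0
  have h1 := vv_ne 1
  have h2 := vv_ne 2
  fin_cases j
  · change _ = v 0
    simp [gs, th_vv]
    field_simp
  · change _ = v 1
    simp [gs, th_vv, Derivation.leibniz_pow]
    field_simp
    ring
  · change _ = v 2
    simp [gs, th_vv]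
    field_simp

theorem hom_gs_gs : (hom gs gs_ind).comp (hom gs gs_ind) = AlgHom.id ℂ K3 := by
  apply algHom_ext_vv
  intro i
  rw [AlgHom.comp_apply, hom_vv, AlgHom.id_apply]
  fin_cases i
  · change hom gs gs_ind (vv 0) = vv 0
    rw [hom_vv]
    rfl
  · change hom gs gs_ind (vv 0 ^ 4 - vv 1) = vv 1
    rw [map_sub, map_pow, hom_vv, hom_vv]
    change vv 0 ^ 4 - (vv 0 ^ 4 - vv 1) = vv 1
    ring
  · change hom gs gs_ind (vv 2) = vv 2
    rw [hom_vv]
    rfl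

/-- The change of coordinates. -/
noncomputable def sw : K3 ≃ₐ[ℂ] K3 := AlgEquiv.ofAlgHom _ _ hom_gs_gs hom_gs_gs

theorem sw_vv (i : Fin 3) : sw (vv i) = gs i := hom_vv gs gs_ind i
theorem sws_vv (i : Fin 3) : sw.symm (vv i) = gs i := hom_vv gs gs_ind i

/-- The chart `ℂ [1 / x, y, T]`. -/
noncomputable def τI : K3 ≃ₐ[ℂ] K3 := pι.τ.trans sw

/-- The order at `x = ∞`. -/
noncomputable def vI : DVal K3 := pl τI.symm (vX 0)

theorem vI_on : IsLocalRing' (RR τI) vI := push_divisor _ (valP_divisor _)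

theorem vI_ord (f : K3) : vI.ord f = (vM pι 0).ord (sw.symm f) := rfl

theorem vI_0 : vI.ord (vv 0) = -1 := by
  rw [vI_ord, sws_vv]
  change (vM pι 0).ord (vv 0) = -1
  rw [← mono_ev, vι_mono]
  rfl

theorem vI_2 : vI.ord (vv 2) = 0 := by
  rw [vI_ord, sws_vv]
  change (vM pι 0).ord (vv 2) = 0
  rw [← mono_ev, vι_mono]
  rfl

theorem vI_1 : vI.ord (vv 1) = -4 := by
  rw [vI_ord, sws_vv]
  change (vM pι 0).ord (vv 0 ^ 4 - vv 1) = -4
  have h0 : (vM pι 0).ord (vv 0) = -1 := by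
    rw [← mono_ev, vι_mono]
    rfl
  have h1 : (vM pι 0).ord (vv 1) = 0 := by
    rw [← mono_ev, vι_mono]
    rfl
  rw [sub_eq_add_neg, (ord_add_of_lt _ (pow_ne_zero _ (vv_ne 0)) (neg_ne_zero.2 (vv_ne 1)) ?_).2,
    DVal.ord_pow _ (vv_ne 0), h0]
  · norm_num
  · rw [DVal.ord_pow _ (vv_ne 0), h0, DVal.ord_neg _ (vv_ne 1), h1]
    norm_num

theorem yv_ne : vv 0 ^ 4 - vv 1 ≠ 0 := by
  have h := sw_vv 1
  have h1 : gs 1 ≠ 0 := by
    rw [← h]
    exact (map_ne_zero _).2 (vv_ne 1)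
  exact h1

theorem vI_y : vI.ord (vv 0 ^ 4 - vv 1) = 0 := by
  rw [vI_ord, map_sub, map_pow, sws_vv, sws_vv]
  change (vM pι 0).ord (vv 0 ^ 4 - (vv 0 ^ 4 - vv 1)) = 0
  rw [sub_sub_cancel, ← mono_ev, vι_mono]
  rfl

theorem th2_I : Preserves vI (th 2) := by
  refine preserves_of vI vI_on fun f hf => vI_on.1 _ (der_mem_RR τI ?_ hf)
  intro i
  have h1 : ∀ i, τI (vv i) = sw (mono (pι.M i)) := fun i => by
    rw [← MP.τ_vv]
    rfl
  have h2 := τ_mem τI (X i)
  change τI (vv i) ∈ RR τI at h2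
  fin_cases i
  · change th 2 (τI (vv 0)) ∈ RR τI
    have h3 : τI (vv 0) = (vv 0)⁻¹ := by
      rw [h1]
      change sw (mono ![-1, 0, 0]) = _
      rw [mono]
      simp [sw_vv, gs]
    rw [h3, Derivation.leibniz_inv, th_vv, if_neg (by decide), smul_zero]
    exact zero_mem _
  · change th 2 (τI (vv 1)) ∈ RR τI
    have h3 : τI (vv 1) = vv 0 ^ 4 - vv 1 := by
      rw [h1]
      change sw (mono ![0, 1, 0]) = _
      rw [mono]
      simp [sw_vv, gs]
    rw [h3, map_sub, Derivation.leibniz_pow, th_vv, th_vv, if_neg (by decide), if_neg (by decide),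
      smul_zero, nsmul_zero, sub_zero]
    exact zero_mem _
  · change th 2 (τI (vv 2)) ∈ RR τI
    have h3 : τI (vv 2) = vv 2 := by
      rw [h1]
      change sw (mono ![0, 0, 1]) = _
      rw [mono]
      simp [sw_vv, gs]
    have h4 : th 2 (τI (vv 2)) = τI (vv 2) := by
      rw [h3, th_vv, if_pos rfl]
    rw [h4]
    exact h2

theorem ge_I {N : ℤ} {f : K3} (hf : Ge vI N f) : Ge vI N (th 2 f) := by
  refine ge_der th2_I (inv_ne_zero (vv_ne 0)) ?_ ?_ hf
  · rw [vI.ord_inv (vv_ne 0), vI_0]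
    rfl
  · rw [Derivation.leibniz_inv, th_vv, if_neg (by decide), smul_zero]

/-- The weights for the powers of `T`. -/
def cw : Fin 3 → ℤ := ![0, 0, 1]

theorem W_cw (m : Fin 3 →₀ ℕ) : W cw m = m 2 := by
  simp [W, cw]

theorem th2_comp (n : ℤ) (q : Q3) : th 2 (io (comp cw n q)) = n * io (comp cw n q) := by
  rw [comp, map_sum, map_sum, Finset.mul_sum]
  refine Finset.sum_congr rfl fun m hm => ?_
  rw [io_mono, Derivation.leibniz, Derivation.map_algebraMap, smul_zero, add_zero, th_mono,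
    smul_eq_mul]
  have h1 := (Finset.mem_filter.1 hm).2
  rw [W_cw] at h1
  rw [h1]
  ring

theorem vI_comp {p : Q3} (hp : p ≠ 0) (h0 : comp cw 0 p ≠ 0) :
    vI.ord (io p) ≤ vI.ord (io (comp cw 0 p)) := by
  classical
  set S : Finset ℤ := insert 0 (p.support.image (W cw)) with hS
  have hA : ∀ m ∈ p.support, W cw m ∈ S := fun m hm =>
    Finset.mem_insert_of_mem (Finset.mem_image_of_mem _ hm)
  have h1 := ge_eig (v := vI) (N := vI.ord (io p)) (th 2) (fun f hf => ge_I hf) S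
    (fun n => io (comp cw n p)) (fun n _ => th2_comp n p) (by
      rw [← map_sum, sum_comp _ _ hA]
      exact Or.inr le_rfl) 0 (Finset.mem_insert_self _ _)
  exact h1.resolve_left ((map_ne_zero_iff io io_inj).2 h0)

/-- The change of coordinates of polynomials. -/
noncomputable def σs : Q3 →ₐ[ℂ] Q3 := aeval ![X 0, X 0 ^ 4 - X 1, X 2]

theorem sws_io (q : Q3) : sw.symm (io q) = io (σs q) := by
  have h : (sw.symm : K3 →ₐ[ℂ] K3).comp io = io.comp σs := by
    apply MvPolynomial.algHom_ext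
    intro i
    change sw.symm (vv i) = io (σs (X i))
    rw [sws_vv, σs, aeval_X]
    fin_cases i
    · rfl
    · change vv 0 ^ 4 - vv 1 = io (X 0 ^ 4 - X 1)
      rw [map_sub, map_pow]
      rfl
    · rfl
  exact DFunLike.congr_fun h q

theorem vI_le_zero {r : Q3} (hr : r ≠ 0) : vI.ord (io r) ≤ 0 := by
  rw [vI_ord, sws_io]
  have h1 : σs r ≠ 0 := by
    intro h
    have h2 := sws_io r
    rw [h, map_zero, map_eq_zero] at h2
    exact hr (io_inj (by rw [h2, map_zero]))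
  obtain ⟨m, hm⟩ := ne_zero_iff.1 h1
  have h2 := vM_le pι 0 hm
  have h3 : mulv (fun l => (m l : ℤ)) pι.N 0 = -(m 0 : ℤ) := by
    simp [mulv, pι]
  rw [h3] at h2
  have h4 : (0 : ℤ) ≤ m 0 := Int.natCast_nonneg _
  omega

theorem X_dvd_of {i : Fin 3} {q : Q3} (h : ∀ m, q.coeff m ≠ 0 → m i ≠ 0) : (X i : Q3) ∣ q := by
  rw [q.as_sum]
  refine Finset.dvd_sum fun m hm => ?_
  rw [X_dvd_monomial]
  exact Or.inr (h m (mem_support_iff.1 hm))

/-- The functional. -/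
noncomputable def Ψ (f : K3) : ℤ := 4 * vC.ord f + 2 * vI.ord f - 4 * (vX 2).ord f

theorem Ψ_mul {f g : K3} (hf : f ≠ 0) (hg : g ≠ 0) : Ψ (f * g) = Ψ f + Ψ g := by
  simp only [Ψ]
  rw [vC.map_mul _ _ hf hg, vI.map_mul _ _ hf hg, (vX 2).map_mul _ _ hf hg]
  ring

theorem vC_vv (i : Fin 3) : vC.ord (vv i) = ![0, 2, 1] i := by
  rw [← mono_ev, vC_mono]
  fin_cases i <;> rfl

theorem Ψ_0 : Ψ (vv 0) = -2 := by
  rw [Ψ, vC_vv, vI_0, vX_ord]
  rfl

theorem Ψ_1 : Ψ (vv 1) = 0 := by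
  rw [Ψ, vC_vv, vI_1, vX_ord]
  rfl

theorem Ψ_2 : Ψ (vv 2) = 0 := by
  rw [Ψ, vC_vv, vI_2, vX_ord]
  rfl

theorem Ψ_const {c : ℂ} (hc : c ≠ 0) : Ψ (algebraMap ℂ K3 c) = 0 := by
  rw [Ψ, vC.const c hc, vI.const c hc, (vX 2).const c hc]
  rfl

/-- The key inequality. -/
theorem Ψ_le {p : Q3} (hp : p ≠ 0) (h2 : ¬ (X 2 : Q3) ∣ p) : Ψ (io p) ≤ 0 := by
  have h0 : comp cw 0 p ≠ 0 := by
    intro h
    apply h2
    apply X_dvd_of
    intro m hm hm2
    have h3 := coeff_comp cw 0 p m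
    rw [h, coeff_zero, if_pos (by rw [W_cw, hm2]; rfl)] at h3
    exact hm h3.symm
  have hfin : FiniteMultiplicity (X 1 : Q3) (comp cw 0 p) := finMult (prime_X 1) h0
  obtain ⟨r, hr, hr1⟩ := hfin.exists_eq_pow_mul_and_not_dvd
  set j := multiplicity (X 1 : Q3) (comp cw 0 p) with hj
  have hr0 : r ≠ 0 := by
    rintro rfl
    exact hr1 (dvd_zero _)
  -- the curve
  obtain ⟨m, hm, hm1⟩ : ∃ m, r.coeff m ≠ 0 ∧ m 1 = 0 := by
    by_contra hcon
    push Not at hcon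
    exact hr1 (X_dvd_of hcon)
  have hc : (comp cw 0 p).coeff (Finsupp.single 1 j + m) ≠ 0 := by
    rw [hr, X_pow_eq_monomial, coeff_monomial_mul, one_mul]
    exact hm
  rw [coeff_comp] at hc
  rw [ite_ne_right_iff] at hc
  obtain ⟨hc1, hc2⟩ := hc
  rw [W_cw] at hc1
  have hC := vM_le pC 2 hc2
  have h3 : mulv (fun l => ((Finsupp.single (1 : Fin 3) j + m) l : ℤ)) pC.N 2 = 2 * j := by
    have h4 : ((Finsupp.single (1 : Fin 3) j + m) 1 : ℕ) = j := by
      rw [Finsupp.add_apply, Finsupp.single_eq_same, hm1, add_zero]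
    simp only [mulv]
    rw [hc1, h4]
    simp [pC]
    ring
  rw [h3] at hC
  -- infinity
  have hI := vI_comp hp h0
  have hI2 : vI.ord (io (comp cw 0 p)) = j * vI.ord (vv 1) + vI.ord (io r) := by
    rw [hr, map_mul, map_pow]
    change vI.ord (vv 1 ^ j * io r) = _
    rw [vI.map_mul _ _ (pow_ne_zero _ (vv_ne 1)) ((map_ne_zero_iff io io_inj).2 hr0),
      vI.ord_pow (vv_ne 1) j]
  rw [hI2, vI_1] at hI
  have hI3 := vI_le_zero hr0
  have hT : (vX 2).ord (io p) = 0 := by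
    have h4 : (vX 2).ord (io p) = (multiplicity (X 2 : Q3) p : ℤ) := valP_ord (prime_X 2) hp
    rw [h4, multiplicity_eq_zero.2 h2]
    rfl
  rw [Ψ, hT]
  change 4 * (vM pC 2).ord (io p) + 2 * vI.ord (io p) - 4 * 0 ≤ 0
  omega

end Pool.Agent.H436R3.KT
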