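import Mathlib
import Pool.Agent.H436R3.KT.Psi

/-!
# Additive functions and prime factorisations
-/

set_option autoImplicit false

namespace Pool.Agent.H436R3.KT

open MvPolynomial Pool.Agent.H436R3.Fol Pool.Agent.H436R3.Can UniqueFactorizationMonoid

/-- An additive function on the multiplicative group of the field, trivial on the constants. -/
structure Additive' (F : K3 → ℤ) : Prop where
  mul : ∀ f g, f ≠ 0 → g ≠ 0 → F (f * g) = F f + F g
  const : ∀ c : ℂ, c ≠ 0 → F (algebraMap ℂ K3 c) = 0

variable {F : K3 → ℤ}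

theorem io_ne {a : Q3} (ha : a ≠ 0) : io a ≠ 0 := (map_ne_zero_iff io io_inj).2 ha

theorem Additive'.unit (hF : Additive' F) {u : Q3} (hu : IsUnit u) : F (io u) = 0 := by
  obtain ⟨c, hc, rfl⟩ := MvPolynomial.isUnit_iff_eq_C_of_isReduced.1 hu
  rw [io_C]
  exact hF.const c hc.ne_zero

theorem Additive'.div (hF : Additive' F) {f g : K3} (hf : f ≠ 0) (hg : g ≠ 0) :
    F (f / g) = F f - F g := by
  have h := hF.mul (f / g) g (div_ne_zero hf hg) hg
  rw [div_mul_cancel₀ _ hg] at h
  omega

theorem Additive'.prod (hF : Additive' F) (s : Multiset Q3) (hs : ∀ p ∈ s, p ≠ 0) :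
    F (io s.prod) = (s.map fun p => F (io p)).sum := by
  induction s using Multiset.induction_on with
  | empty =>
    rw [Multiset.prod_zero, Multiset.map_zero, Multiset.sum_zero]
    exact hF.unit isUnit_one
  | cons a s ih =>
    have h1 : s.prod ≠ 0 := by
      rw [Ne, Multiset.prod_eq_zero_iff]
      intro h
      exact hs 0 (Multiset.mem_cons_of_mem h) rfl
    rw [Multiset.prod_cons, map_mul, hF.mul _ _ (io_ne (hs a (Multiset.mem_cons_self a s)))
      (io_ne h1), ih fun p hp => hs p (Multiset.mem_cons_of_mem hp), Multiset.map_cons,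
      Multiset.sum_cons]

theorem Additive'.factors [NormalizationMonoid Q3] [DecidableEq Q3] (hF : Additive' F) {a : Q3}
    (ha : a ≠ 0) {S : Finset Q3} (hS : (normalizedFactors a).toFinset ⊆ S)
    (hp : ∀ p ∈ S, Prime p ∧ normalize p = p) :
    F (io a) = ∑ p ∈ S, (multiplicity p a : ℤ) * F (io p) := by
  obtain ⟨u, hu⟩ := prod_normalizedFactors ha
  have hne : ∀ p ∈ normalizedFactors a, p ≠ 0 := fun p hp => (prime_of_normalized_factor p hp).ne_zero
  have hprod : (normalizedFactors a).prod ≠ 0 := by
    rw [Ne, Multiset.prod_eq_zero_iff]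
    intro h
    exact hne 0 h rfl
  have h1 : F (io a) = F (io (normalizedFactors a).prod) := by
    conv_lhs => rw [← hu]
    rw [map_mul, hF.mul _ _ (io_ne hprod) (io_ne u.isUnit.ne_zero), hF.unit u.isUnit, add_zero]
  rw [h1, hF.prod _ hne, Finset.sum_multiset_map_count]
  have h2 : ∀ p ∈ (normalizedFactors a).toFinset,
      Multiset.count p (normalizedFactors a) • F (io p) = (multiplicity p a : ℤ) * F (io p) := by
    intro p hp'
    have h3 := hp p (hS hp')
    rw [multiplicity_eq_count_normalizedFactors h3.1.irreducible ha, h3.2, nsmul_eq_mul]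
  rw [Finset.sum_congr rfl h2]
  refine Finset.sum_subset hS fun p hp' hnp => ?_
  have h3 := hp p hp'
  rw [multiplicity_eq_count_normalizedFactors h3.1.irreducible ha, h3.2,
    Multiset.count_eq_zero_of_notMem (fun h => hnp (Multiset.mem_toFinset.2 h))]
  simp

theorem exists_primes {n : ℕ} (g : Fin n → K3) (hg : ∀ j, g j ≠ 0) : ∃ S : Finset Q3,
    (∀ p ∈ S, Prime p) ∧ (∀ p ∈ S, ∀ q ∈ S, Associated p q → p = q) ∧
    ∀ F : K3 → ℤ, Additive' F → ∀ j, F (g j) = ∑ p ∈ S, ordP p (g j) * F (io p) := by
  classical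
  letI : NormalizationMonoid Q3 :=
    @StrongNormalizationMonoid.toNormalizationMonoid _ _
      UniqueFactorizationMonoid.strongNormalizationMonoid
  choose a b hb hab using fun j => exists_frac Q3 (g j)
  have ha : ∀ j, a j ≠ 0 := by
    intro j h
    apply hg j
    rw [hab j, h, map_zero, zero_div]
  set S : Finset Q3 := Finset.univ.biUnion fun j =>
    (normalizedFactors (a j)).toFinset ∪ (normalizedFactors (b j)).toFinset with hSdef
  have hS1 : ∀ p ∈ S, Prime p ∧ normalize p = p := by
    intro p hp
    rw [hSdef, Finset.mem_biUnion] at hp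
    obtain ⟨j, -, hj⟩ := hp
    rcases Finset.mem_union.1 hj with h | h
    · have h1 := Multiset.mem_toFinset.1 h
      exact ⟨prime_of_normalized_factor p h1, normalize_normalized_factor p h1⟩
    · have h1 := Multiset.mem_toFinset.1 h
      exact ⟨prime_of_normalized_factor p h1, normalize_normalized_factor p h1⟩
  have hSa : ∀ j, (normalizedFactors (a j)).toFinset ⊆ S := fun j =>
    Finset.subset_union_left.trans
      (Finset.subset_biUnion_of_mem (fun j => (normalizedFactors (a j)).toFinset ∪
        (normalizedFactors (b j)).toFinset) (Finset.mem_univ j))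
  have hSb : ∀ j, (normalizedFactors (b j)).toFinset ⊆ S := fun j =>
    Finset.subset_union_right.trans
      (Finset.subset_biUnion_of_mem (fun j => (normalizedFactors (a j)).toFinset ∪
        (normalizedFactors (b j)).toFinset) (Finset.mem_univ j))
  refine ⟨S, fun p hp => (hS1 p hp).1, ?_, ?_⟩
  · intro p hp q hq h
    rw [← (hS1 p hp).2, ← (hS1 q hq).2]
    exact normalize_eq_normalize h.dvd h.symm.dvd
  · intro F hF j
    have h1 : g j = io (a j) / io (b j) := hab j
    have h2 : ∀ p ∈ S, ordP p (g j) = (multiplicity p (a j) : ℤ) - multiplicity p (b j) := by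
      intro p hp
      rw [hab j]
      exact ordP_div (hS1 p hp).1 (ha j) (hb j)
    rw [h1, hF.div (io_ne (ha j)) (io_ne (hb j)), hF.factors (ha j) (hSa j) hS1,
      hF.factors (hb j) (hSb j) hS1, ← Finset.sum_sub_distrib, ← h1]
    refine Finset.sum_congr rfl fun p hp => ?_
    rw [h2 p hp]
    ring

end Pool.Agent.H436R3.KT
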