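import Mathlib
import Pool.Agent.H436R3.KT.Sum

/-!
# General facts on divisors on affine varieties
-/

set_option autoImplicit false

namespace Pool.Agent.H436R3.KT

open MvPolynomial Pool.Agent.H436R3.Fol Pool.Agent.H436R3.Can

/-- Clearing denominators. -/
theorem clear {S : Subalgebra ℂ K3} {s : K3} (hs : s ∈ S) (τ : K3 ≃ₐ[ℂ] K3)
    (h : ∀ k, s * τ (vv k) ∈ S) (P : Q3) : ∃ N : ℕ, ∀ m, N ≤ m → s ^ m * τ (io P) ∈ S := by
  induction P using MvPolynomial.induction_on with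
  | C a =>
    refine ⟨0, fun m _ => ?_⟩
    rw [io_C, AlgEquiv.commutes]
    exact mul_mem (pow_mem hs _) (Subalgebra.algebraMap_mem _ _)
  | add p q hp hq =>
    obtain ⟨N1, h1⟩ := hp
    obtain ⟨N2, h2⟩ := hq
    refine ⟨N1 + N2, fun m hm => ?_⟩
    rw [map_add, map_add, mul_add]
    exact add_mem (h1 m (by omega)) (h2 m (by omega))
  | mul_X p j hp =>
    obtain ⟨N1, h1⟩ := hp
    refine ⟨N1 + 1, fun m hm => ?_⟩
    obtain ⟨e, rfl⟩ := Nat.exists_eq_add_of_le' hm
    rw [map_mul, map_mul]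
    have h3 : s ^ (e + (N1 + 1)) * (τ (io p) * τ (io (X j))) =
        (s ^ (e + N1) * τ (io p)) * (s * τ (vv j)) := by
      rw [vv]
      ring
    rw [h3]
    exact mul_mem (h1 _ (by omega)) (h j)

theorem frac_of {S : Subalgebra ℂ K3} {s : K3} (hs : s ∈ S) (hs0 : s ≠ 0) (τ : K3 ≃ₐ[ℂ] K3)
    (h : ∀ k, s * τ (vv k) ∈ S) (f : K3) : ∃ a b : K3, a ∈ S ∧ b ∈ S ∧ b ≠ 0 ∧ f * b = a := by
  obtain ⟨a, b, ha, hb, hb0, hab⟩ := RR_frac τ f
  obtain ⟨a', rfl⟩ := (mem_RR' τ).1 ha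
  obtain ⟨b', rfl⟩ := (mem_RR' τ).1 hb
  obtain ⟨N1, h1⟩ := clear hs τ h a'
  obtain ⟨N2, h2⟩ := clear hs τ h b'
  refine ⟨_, _, h1 (N1 + N2) (by omega), h2 (N1 + N2) (by omega),
    mul_ne_zero (pow_ne_zero _ hs0) hb0, ?_⟩
  rw [← hab]
  ring

theorem on_of {S : Subalgebra ℂ K3} {s : K3} (hs : s ∈ S) (hs0 : s ≠ 0) (τ : K3 ≃ₐ[ℂ] K3)
    (h : ∀ k, s * τ (vv k) ∈ S) {v : DVal K3} (hv : IsLocalRing' (RR τ) v)
    (hr : ∀ f ∈ S, v.Reg f) (hvs : v.ord s = 0) : IsLocalRing' S v := by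
  refine ⟨hr, fun f hf => ?_⟩
  obtain ⟨a, b, ha, hb, hb0, hob, hab⟩ := hv.2 f hf
  obtain ⟨a', rfl⟩ := (mem_RR' τ).1 ha
  obtain ⟨b', rfl⟩ := (mem_RR' τ).1 hb
  obtain ⟨N1, h1⟩ := clear hs τ h a'
  obtain ⟨N2, h2⟩ := clear hs τ h b'
  refine ⟨_, _, h1 (N1 + N2) (by omega), h2 (N1 + N2) (by omega),
    mul_ne_zero (pow_ne_zero _ hs0) hb0, ?_, ?_⟩
  · rw [v.map_mul _ _ (pow_ne_zero _ hs0) hb0, v.ord_pow hs0, hvs, hob]
    ring
  · rw [← hab]
    ring

theorem RR_refl : RR (AlgEquiv.refl : K3 ≃ₐ[ℂ] K3) = QK := by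
  ext f
  rw [mem_RR]
  rfl

/-- The valuation ring as a subalgebra. -/
def regAlg (v : DVal K3) : Subalgebra ℂ K3 where
  carrier := {f | v.Reg f}
  mul_mem' := v.reg_mul
  one_mem' := v.reg_one
  add_mem' := v.reg_add
  zero_mem' := v.reg_zero
  algebraMap_mem' := v.reg_const

theorem mem_regAlg {v : DVal K3} {f : K3} : f ∈ regAlg v ↔ v.Reg f := Iff.rfl

theorem reg_of_pos' {v : DVal K3} {f : K3} (h : v.Pos f) : v.Reg f := h.imp id le_of_lt

theorem pos_neg' {v : DVal K3} {f : K3} (h : v.Pos f) : v.Pos (-f) := by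
  rw [neg_eq_neg_one_mul]
  exact v.pos_mul_left (v.reg_neg v.reg_one) h

theorem pos_sub' {v : DVal K3} {f g : K3} (hf : v.Pos f) (hg : v.Pos g) : v.Pos (f - g) := by
  rw [sub_eq_add_neg]
  exact v.pos_add hf (pos_neg' hg)

theorem const_zero {v : DVal K3} {c : ℂ} (h : v.Pos (algebraMap ℂ K3 c)) : c = 0 := by
  by_contra hc
  rcases h with h | h
  · exact hc ((map_eq_zero _).1 h)
  · rw [v.const c hc] at h
    exact lt_irrefl _ h

theorem const_unique {v : DVal K3} {f : K3} {c c' : ℂ} (h : v.Pos (f - algebraMap ℂ K3 c))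
    (h' : v.Pos (f - algebraMap ℂ K3 c')) : c = c' := by
  have h1 := pos_sub' h' h
  have h2 : f - algebraMap ℂ K3 c' - (f - algebraMap ℂ K3 c) = algebraMap ℂ K3 (c - c') := by
    rw [map_sub]
    ring
  rw [h2] at h1
  exact sub_eq_zero.1 (const_zero h1)

/-- The closed point given by a divisor whose centre is a closed point. -/
noncomputable def evalHom (v : DVal K3) (S : Subalgebra ℂ K3)
    (h : ∀ f ∈ S, ∃ c : ℂ, v.Pos (f - algebraMap ℂ K3 c)) : S →ₐ[ℂ] ℂ where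
  toFun f := (h f f.2).choose
  map_one' := by
    refine const_unique (h 1 (one_mem S)).choose_spec ?_
    rw [map_one, sub_self]
    exact Or.inl rfl
  map_mul' f g := by
    refine const_unique (h _ (f * g).2).choose_spec ?_
    have hf := (h f f.2).choose_spec
    have hg := (h g g.2).choose_spec
    set a := (h f f.2).choose
    set b := (h g g.2).choose
    have hf' : v.Reg (f : K3) := by
      have : (f : K3) = (f - algebraMap ℂ K3 a) + algebraMap ℂ K3 a := by ring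
      rw [this]
      exact v.reg_add (reg_of_pos' hf) (v.reg_const _)
    have h3 : ((f * g : S) : K3) - algebraMap ℂ K3 (a * b) =
        f * (g - algebraMap ℂ K3 b) + algebraMap ℂ K3 b * (f - algebraMap ℂ K3 a) := by
      rw [map_mul]
      push_cast
      ring
    rw [h3]
    exact v.pos_add (v.pos_mul_left hf' hg) (v.pos_mul_left (v.reg_const _) hf)
  map_zero' := by
    refine const_unique (h 0 (zero_mem S)).choose_spec ?_
    rw [map_zero, sub_self]
    exact Or.inl rfl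
  map_add' f g := by
    refine const_unique (h _ (f + g).2).choose_spec ?_
    have hf := (h f f.2).choose_spec
    have hg := (h g g.2).choose_spec
    set a := (h f f.2).choose
    set b := (h g g.2).choose
    have h3 : ((f + g : S) : K3) - algebraMap ℂ K3 (a + b) =
        (f - algebraMap ℂ K3 a) + (g - algebraMap ℂ K3 b) := by
      rw [map_add]
      push_cast
      ring
    rw [h3]
    exact v.pos_add hf hg
  commutes' c := by
    refine const_unique (h _ (algebraMap ℂ S c).2).choose_spec ?_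
    left
    exact sub_self _

theorem evalHom_spec (v : DVal K3) (S : Subalgebra ℂ K3)
    (h : ∀ f ∈ S, ∃ c : ℂ, v.Pos (f - algebraMap ℂ K3 c)) (f : S) :
    v.Pos ((f : K3) - algebraMap ℂ K3 (evalHom v S h f)) := (h f f.2).choose_spec

theorem evalHom_eq (v : DVal K3) (S : Subalgebra ℂ K3)
    (h : ∀ f ∈ S, ∃ c : ℂ, v.Pos (f - algebraMap ℂ K3 c)) (f : S) {c : ℂ}
    (hc : v.Pos ((f : K3) - algebraMap ℂ K3 c)) : evalHom v S h f = c :=
  const_unique (evalHom_spec v S h f) hc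

/-- A function with non-zero value is a unit. -/
theorem evalHom_ord (v : DVal K3) (S : Subalgebra ℂ K3)
    (h : ∀ f ∈ S, ∃ c : ℂ, v.Pos (f - algebraMap ℂ K3 c)) (f : S) (hf : evalHom v S h f ≠ 0) :
    (f : K3) ≠ 0 ∧ v.ord (f : K3) = 0 := by
  have h1 := evalHom_spec v S h f
  set c := evalHom v S h f
  have hn : ¬ v.Pos (f : K3) := by
    intro h2
    apply hf
    exact const_unique h1 (by rwa [map_zero, sub_zero])
  have hreg : v.Reg (f : K3) := by
    have : (f : K3) = (f - algebraMap ℂ K3 c) + algebraMap ℂ K3 c := by ring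
    rw [this]
    exact v.reg_add (reg_of_pos' h1) (v.reg_const _)
  have hf0 : (f : K3) ≠ 0 := fun h2 => hn (Or.inl h2)
  refine ⟨hf0, ?_⟩
  have h2 := v.ord_nonneg hf0 hreg
  by_contra h3
  exact hn (Or.inr (by omega))

end Pool.Agent.H436R3.KT
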