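import Mathlib
import Pool.Agent.H436R3.KT.Gen

/-!
# Canonical orders at the divisors on a chart
-/

set_option autoImplicit false

namespace Pool.Agent.H436R3.KT

open MvPolynomial Pool.Agent.H436R3.Fol Pool.Agent.H436R3.Can

variable (p : MP) {v : DVal K3}

/-- The determinant is a unit. -/
def UM (p : MP) : Prop :=
    p.N 0 0 * p.N 1 1 * p.N 2 2 - p.N 0 0 * p.N 1 2 * p.N 2 1 - p.N 0 1 * p.N 1 0 * p.N 2 2
      + p.N 0 1 * p.N 1 2 * p.N 2 0 + p.N 0 2 * p.N 1 0 * p.N 2 1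
      - p.N 0 2 * p.N 1 1 * p.N 2 0 = 1 ∨
    p.N 0 0 * p.N 1 1 * p.N 2 2 - p.N 0 0 * p.N 1 2 * p.N 2 1 - p.N 0 1 * p.N 1 0 * p.N 2 2
      + p.N 0 1 * p.N 1 2 * p.N 2 0 + p.N 0 2 * p.N 1 0 * p.N 2 1
      - p.N 0 2 * p.N 1 1 * p.N 2 0 = -1

/-- The coordinates of the chart. -/
theorem p_mem' (k : Fin 3) : mono (p.M k) ∈ RR p.τ := by
  have := τ_mem p.τ (X k)
  change p.τ (vv k) ∈ RR p.τ at this
  rw [MP.τ_vv] at this
  exact this

theorem pl_vv' (v : DVal K3) (k : Fin 3) : (pl p.τ v).ord (vv k) = v.ord (mono (p.M k)) := by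
  rw [pl_ord, MP.τ_vv]

theorem ord_lin' (v : DVal K3) (e : Fin 3 → ℤ) : v.ord (mono (mulv e (p.M))) =
    e 0 * v.ord (mono (p.M 0)) + e 1 * v.ord (mono (p.M 1)) + e 2 * v.ord (mono (p.M 2)) := by
  have h1 := ord_mono (pl p.τ v) e
  rw [pl_ord, MP.τ_mono, pl_vv', pl_vv', pl_vv'] at h1
  exact h1

theorem ord_vv' (v : DVal K3) (j : Fin 3) : v.ord (vv j) = p.N j 0 * v.ord (mono (p.M 0)) +
    p.N j 1 * v.ord (mono (p.M 1)) + p.N j 2 * v.ord (mono (p.M 2)) := by
  rw [← ord_lin', ← mono_ev]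
  congr 1
  exact mono_congr fun k => ((p.NM j) k).symm

theorem p_nonneg' (hv : ∀ f ∈ RR p.τ, v.Reg f) (k : Fin 3) : 0 ≤ v.ord (mono (p.M k)) :=
  v.ord_nonneg (mono_ne _) (hv _ (p_mem' p k))

theorem p_ord' (hv : IsLocalRing' (RR p.τ) v) {k : Fin 3} (hk : 0 < v.ord (mono (p.M k)))
    (l : Fin 3) : v.ord (mono (p.M l)) = if k = l then 1 else 0 := by
  have h1 := agree_vX' (pl_divisor p.τ hv) (j := k) (by rw [pl_vv']; exact hk)
  rw [← pl_vv', h1 _ (vv_ne l), vX_ord]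

/-- A basis of vector fields on the chart. -/
noncomputable def AT' (d : Fin 3 → K3) : Matrix (Fin 3) (Fin 3) K3 :=
  Matrix.of fun a l => d a * (p.N l a : K3)

theorem AT_det' (hu : UM p) (d : Fin 3 → K3) :
    (AT' p d).det = d 0 * d 1 * d 2 ∨ (AT' p d).det = -(d 0 * d 1 * d 2) := by
  have h1 : (AT' p d).det = d 0 * d 1 * d 2 *
    ((p.N 0 0 * p.N 1 1 * p.N 2 2 - p.N 0 0 * p.N 1 2 * p.N 2 1 - p.N 0 1 * p.N 1 0 * p.N 2 2
      + p.N 0 1 * p.N 1 2 * p.N 2 0 + p.N 0 2 * p.N 1 0 * p.N 2 1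
      - p.N 0 2 * p.N 1 1 * p.N 2 0 : ℤ) : K3) := by
    rw [Matrix.det_fin_three]
    simp only [AT', Matrix.of_apply]
    push_cast
    ring
  rw [h1]
  rcases hu with h | h
  · left
    rw [h, Int.cast_one, mul_one]
  · right
    rw [h]
    push_cast
    ring

theorem AT_sum' (d : Fin 3 → K3) (a b : Fin 3) :
    (∑ l, AT' p d a l • folT.D l) (mono (p.M b)) = d a * ((ev b a : ℤ) * mono (p.M b)) := by
  rw [sum_der_apply, Fin.sum_univ_three, ← p.MN b a]
  change AT' p d a 0 * th 0 (mono (p.M b)) + AT' p d a 1 * th 1 (mono (p.M b)) +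
    AT' p d a 2 * th 2 (mono (p.M b)) = _
  rw [th_mono, th_mono, th_mono]
  simp only [AT', Matrix.of_apply, mulv]
  push_cast
  ring

theorem AT_pres' (hv : IsLocalRing' (RR p.τ) v) (d : Fin 3 → K3)
    (hd : ∀ a, d a = 1 ∨ d a = (mono (p.M a))⁻¹) (a : Fin 3) :
    Preserves v (∑ l, AT' p d a l • folT.D l) := by
  refine preserves_of v hv fun f hf => hv.1 _ (der_mem_RR p.τ ?_ hf)
  intro b
  rw [MP.τ_vv]
  change (∑ l, AT' p d a l • folT.D l) (mono (p.M b)) ∈ _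
  rw [AT_sum', ev]
  by_cases h : b = a
  · rw [if_pos h, Int.cast_one, one_mul, h]
    rcases hd a with h1 | h1
    · rw [h1, one_mul]
      exact p_mem' p a
    · rw [h1, inv_mul_cancel₀ (mono_ne _)]
      exact one_mem _
  · rw [if_neg h, Int.cast_zero, zero_mul, mul_zero]
    exact zero_mem _

theorem ord_AT' (hu : UM p) (v : DVal K3) (d : Fin 3 → K3) (hd : ∀ a, d a ≠ 0) :
    (AT' p d).det ≠ 0 ∧ v.ord (AT' p d).det = v.ord (d 0) + v.ord (d 1) + v.ord (d 2) := by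
  have h1 : d 0 * d 1 * d 2 ≠ 0 := mul_ne_zero (mul_ne_zero (hd 0) (hd 1)) (hd 2)
  have h2 : v.ord (d 0 * d 1 * d 2) = v.ord (d 0) + v.ord (d 1) + v.ord (d 2) := by
    rw [v.map_mul _ _ (mul_ne_zero (hd 0) (hd 1)) (hd 2), v.map_mul _ _ (hd 0) (hd 1)]
  rcases AT_det' p hu d with h | h
  · rw [h]
    exact ⟨h1, h2⟩
  · rw [h]
    exact ⟨neg_ne_zero.2 h1, by rw [v.ord_neg h1, h2]⟩

/-- The local equation of the canonical divisor. -/
noncomputable def gT' : K3 := (mono (p.M 0) * mono (p.M 1) * mono (p.M 2))⁻¹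

theorem gT_ne' : gT' p ≠ 0 :=
  inv_ne_zero (mul_ne_zero (mul_ne_zero (mono_ne _) (mono_ne _)) (mono_ne _))

theorem ord_gT' (v : DVal K3) : v.ord (gT' p) =
    -(v.ord (mono (p.M 0)) + v.ord (mono (p.M 1)) + v.ord (mono (p.M 2))) := by
  rw [gT', v.ord_inv (mul_ne_zero (mul_ne_zero (mono_ne _) (mono_ne _)) (mono_ne _)),
    v.map_mul _ _ (mul_ne_zero (mono_ne _) (mono_ne _)) (mono_ne _),
    v.map_mul _ _ (mono_ne _) (mono_ne _)]

theorem canT' (hu : UM p) (hv : IsLocalRing' (RR p.τ) v) :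
    ∃ a : ℤ, IsCanOrd folT v a ∧ a = v.ord (gT' p) := by
  by_cases h : ∃ k, 0 < v.ord (mono (p.M k))
  · obtain ⟨k, hk⟩ := h
    have e := p_ord' p hv hk
    have hd : ∀ a, (Function.update (1 : Fin 3 → K3) k (mono (p.M k))⁻¹) a ≠ 0 := by
      intro a
      by_cases ha : a = k
      · subst ha
        rw [Function.update_self]
        exact inv_ne_zero (mono_ne _)
      · rw [Function.update_of_ne ha]
        exact one_ne_zero
    obtain ⟨h1, h2⟩ := ord_AT' p hu v _ hd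
    refine ⟨-1, isCanOrd_of (AT' p (Function.update (1 : Fin 3 → K3) k (mono (p.M k))⁻¹)) h1
      (AT_pres' p hv _ ?_) ?_ ?_, ?_⟩
    · intro a
      by_cases ha : a = k
      · subst ha
        rw [Function.update_self]
        exact Or.inr rfl
      · rw [Function.update_of_ne ha]
        exact Or.inl rfl
    · rw [h2]
      have h3 : ∀ a, v.ord ((Function.update (1 : Fin 3 → K3) k (mono (p.M k))⁻¹) a) =
          if k = a then -1 else 0 := by
        intro a
        by_cases ha : a = k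
        · subst ha
          rw [Function.update_self, if_pos rfl, v.ord_inv (mono_ne _), e, if_pos rfl]
        · rw [Function.update_of_ne ha, if_neg fun h => ha h.symm, Pi.one_apply, v.ord_one]
      rw [h3, h3, h3]
      fin_cases k <;> simp
    · intro A hA0 hA
      exact T_lower v hA0 hA
    · rw [ord_gT', e, e, e]
      fin_cases k <;> simp
  · have e : ∀ k, v.ord (mono (p.M k)) = 0 := by
      intro k
      have h1 := p_nonneg' p hv.1 k
      rw [not_exists] at h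
      have h2 := h k
      omega
    obtain ⟨h1, h2⟩ := ord_AT' p hu v 1 (fun a => one_ne_zero)
    refine ⟨0, isCanOrd_of (AT' p 1) h1 (AT_pres' p hv _ fun a => Or.inl rfl) ?_ ?_, ?_⟩
    · rw [h2]
      simp only [Pi.one_apply]
      rw [v.ord_one]
      rfl
    · intro A hA0 hA
      refine T_lower_zero v hA0 hA ?_
      intro j
      rw [ord_vv' p, e, e, e]
      ring
    · rw [ord_gT', e, e, e]
      rfl

end Pool.Agent.H436R3.KT
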