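import Mathlib
import Pool.Agent.H436R3.KT.Gen

/-!
# The general fibre
-/

set_option autoImplicit false

namespace Pool.Agent.H436R3.KT

open MvPolynomial Pool.Agent.H436R3.Fol Pool.Agent.H436R3.Can

/-- The function `z = T² / q`. -/
noncomputable def zv : K3 := mono ![0, -1, 2]

/-- The function `y = x ^ 4 - q`. -/
noncomputable def yv : K3 := vv 0 ^ 4 - vv 1

theorem zv_ne : zv ≠ 0 := mono_ne _

theorem yv_ne0 : yv ≠ 0 := yv_ne

theorem q_zv : vv 1 * zv = vv 2 ^ 2 := by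
  rw [zv, ← mono_ev 1, ← mono_ev 2, ← mono_add, pow_two, ← mono_add]
  apply mono_congr
  intro k
  fin_cases k <;> simp [ev]

/-- The generators `x ^ i y ^ j z`. -/
noncomputable def gz (i j : ℕ) : K3 := zv * (vv 0 ^ i * yv ^ j)

/-- The generators of the coordinate ring. -/
noncomputable def G1 : Set K3 :=
  insert (vv 2) (Set.range fun p : Fin 5 × Fin 2 => gz p.1 p.2)

/-- The coordinate ring of the general fibre. -/
noncomputable def R1 : Subalgebra ℂ K3 := Algebra.adjoin ℂ G1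

theorem G1_finite : G1.Finite := (Set.finite_range _).insert _

theorem T_mem1 : vv 2 ∈ R1 := Algebra.subset_adjoin (Set.mem_insert _ _)

theorem gz_mem {i j : ℕ} (hi : i ≤ 4) (hj : j ≤ 1) : gz i j ∈ R1 :=
  Algebra.subset_adjoin (Set.mem_insert_of_mem _
    ⟨(⟨i, by omega⟩, ⟨j, by omega⟩), rfl⟩)

theorem z_mem1 : zv ∈ R1 := by
  have h := gz_mem (i := 0) (j := 0) (by norm_num) (by norm_num)
  simpa [gz] using h

theorem z_refl (k : Fin 3) : zv * (AlgEquiv.refl : K3 ≃ₐ[ℂ] K3) (vv k) ∈ R1 := by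
  rw [AlgEquiv.coe_refl, id]
  fin_cases k
  · have h := gz_mem (i := 1) (j := 0) (by norm_num) (by norm_num)
    simpa [gz] using h
  · change zv * vv 1 ∈ R1
    rw [mul_comm, q_zv]
    exact pow_mem T_mem1 _
  · exact mul_mem z_mem1 T_mem1

/-- The general fibre. -/
noncomputable def X1 : AffVar K3 where
  R := R1
  fg := ⟨G1_finite.toFinset, by rw [Set.Finite.coe_toFinset]; rfl⟩
  frac := frac_of z_mem1 zv_ne AlgEquiv.refl z_refl
  d := 3
  T := folT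
  top := folT_space

theorem ord_gz (v : DVal K3) (i j : ℕ) :
    v.ord (gz i j) = v.ord zv + (i * v.ord (vv 0) + j * v.ord yv) := by
  rw [gz, v.map_mul _ _ zv_ne (mul_ne_zero (pow_ne_zero _ (vv_ne 0)) (pow_ne_zero _ yv_ne0)),
    v.map_mul _ _ (pow_ne_zero _ (vv_ne 0)) (pow_ne_zero _ yv_ne0), v.ord_pow (vv_ne 0),
    v.ord_pow yv_ne0]

theorem ord_zv (v : DVal K3) : v.ord zv = 2 * v.ord (vv 2) - v.ord (vv 1) := by
  rw [zv, ord_mono]
  simp
  ring

theorem R1_reg {v : DVal K3} (hT : 0 ≤ v.ord (vv 2))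
    (h : ∀ i j : ℕ, i ≤ 4 → j ≤ 1 → 0 ≤ v.ord zv + (i * v.ord (vv 0) + j * v.ord yv)) :
    ∀ f ∈ R1, v.Reg f := by
  intro f hf
  have h1 : R1 ≤ regAlg v := by
    rw [R1, Algebra.adjoin_le_iff]
    rintro _ (rfl | ⟨p, rfl⟩)
    · exact v.reg_of_ord hT
    · refine v.reg_of_ord ?_
      rw [ord_gz]
      exact h _ _ (by omega) (by omega)
  exact h1 hf

theorem yv_nonneg {v : DVal K3} (h : ∀ j, 0 ≤ v.ord (vv j)) : 0 ≤ v.ord yv := by
  refine v.ord_nonneg yv_ne0 (QK_reg h ?_)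
  exact sub_mem (pow_mem (vv_mem 0) _) (vv_mem 1)

theorem R1_reg' {v : DVal K3} (h : ∀ j, 0 ≤ v.ord (vv j)) (hz : 0 ≤ v.ord zv) :
    ∀ f ∈ R1, v.Reg f := by
  refine R1_reg (h 2) fun i j _ _ => ?_
  have h1 := yv_nonneg h
  have h2 := h 0
  positivity

theorem vC_zv : vC.ord zv = 0 := by
  rw [ord_zv, vC_vv, vC_vv]
  rfl

theorem vI_zv : vI.ord zv = 4 := by
  rw [ord_zv, vI_1, vI_2]
  rfl

theorem vC_reg : ∀ f ∈ R1, vC.Reg f := by
  refine R1_reg' (fun j => ?_) vC_zv.ge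
  rw [vC_vv]
  fin_cases j
  · exact le_rfl
  · change (0 : ℤ) ≤ 2
    norm_num
  · change (0 : ℤ) ≤ 1
    norm_num

theorem vI_reg : ∀ f ∈ R1, vI.Reg f := by
  refine R1_reg vI_2.ge fun i j hi _ => ?_
  have h1 : vI.ord yv = 0 := vI_y
  rw [vI_zv, vI_0, h1]
  have : (i : ℤ) ≤ 4 := by exact_mod_cast hi
  linarith

theorem vC_on1 : IsLocalRing' R1 vC := by
  refine on_of z_mem1 zv_ne pC.τ (fun k => ?_) (vM_on pC 2) vC_reg vC_zv
  rw [MP.τ_vv]
  fin_cases k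
  · change zv * mono ![1, 0, 0] ∈ R1
    have h := gz_mem (i := 1) (j := 0) (by norm_num) (by norm_num)
    simpa [gz, mono] using h
  · change zv * mono ![0, -1, 2] ∈ R1
    exact mul_mem z_mem1 z_mem1
  · change zv * mono ![0, 0, 1] ∈ R1
    have h := mul_mem z_mem1 T_mem1
    simpa [mono] using h

theorem τI_0 : τI (vv 0) = (vv 0)⁻¹ := by
  change sw (pι.τ (vv 0)) = _
  rw [MP.τ_vv]
  change sw (mono ![-1, 0, 0]) = _
  rw [mono]
  simp [sw_vv, gs]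

theorem τI_1 : τI (vv 1) = yv := by
  change sw (pι.τ (vv 1)) = _
  rw [MP.τ_vv]
  change sw (mono ![0, 1, 0]) = _
  rw [mono]
  simp [sw_vv, gs, yv]

theorem τI_2 : τI (vv 2) = vv 2 := by
  change sw (pι.τ (vv 2)) = _
  rw [MP.τ_vv]
  change sw (mono ![0, 0, 1]) = _
  rw [mono]
  simp [sw_vv, gs]

theorem vI_on1 : IsLocalRing' R1 vI := by
  have h4 := gz_mem (i := 4) (j := 0) (by norm_num) (by norm_num)
  have e4 : gz 4 0 = zv * vv 0 ^ 4 := by simp [gz]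
  rw [e4] at h4
  have h0 := vv_ne 0
  refine on_of h4 (mul_ne_zero zv_ne (pow_ne_zero _ h0)) τI (fun k => ?_) vI_on vI_reg ?_
  · fin_cases k
    · change zv * vv 0 ^ 4 * τI (vv 0) ∈ R1
      have h := gz_mem (i := 3) (j := 0) (by norm_num) (by norm_num)
      have e : zv * vv 0 ^ 4 * τI (vv 0) = gz 3 0 := by
        rw [τI_0]
        simp only [gz, pow_zero, mul_one]
        field_simp
      rw [e]
      exact h
    · change zv * vv 0 ^ 4 * τI (vv 1) ∈ R1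
      have h := gz_mem (i := 4) (j := 1) (by norm_num) (by norm_num)
      have e : zv * vv 0 ^ 4 * τI (vv 1) = gz 4 1 := by
        rw [τI_1]
        simp only [gz, pow_one]
        ring
      rw [e]
      exact h
    · change zv * vv 0 ^ 4 * τI (vv 2) ∈ R1
      rw [τI_2]
      exact mul_mem h4 T_mem1
  · rw [vI.map_mul _ _ zv_ne (pow_ne_zero _ h0), vI.ord_pow h0, vI_zv, vI_0]
    norm_num

/-- The divisors on the affine space away from `q T = 0`. -/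
theorem valP_on1 {p : Q3} (hp : Prime p) (h1 : (valP K3 p hp).ord (vv 1) = 0)
    (h2 : (valP K3 p hp).ord (vv 2) = 0) : IsLocalRing' R1 (valP K3 p hp) := by
  have hv := valP_divisor hp
  have hz : (valP K3 p hp).ord zv = 0 := by
    rw [ord_zv, h1, h2]
    rfl
  refine on_of z_mem1 zv_ne AlgEquiv.refl z_refl ?_ (R1_reg' (vv_nonneg hv) hz.ge) hz
  rw [RR_refl]
  exact hv

theorem v0_reg : ∀ f ∈ R1, (vX 2).Reg f := by
  refine R1_reg' (vv_nonneg (valP_divisor (prime_X 2))) ?_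
  rw [ord_zv, vX_ord, vX_ord]
  decide

/-- The divisor over the vertex. -/
theorem v0_over : ∃ S : Subalgebra ℂ K3, S.FG ∧ R1 ≤ S ∧ IsLocalRing' S (vX 2) := by
  refine ⟨Algebra.adjoin ℂ (insert (vv 1)⁻¹ (Set.range vv)),
    ⟨((Set.finite_range vv).insert _).toFinset, by rw [Set.Finite.coe_toFinset]⟩, ?_, ?_, ?_⟩
  · have hm : ∀ k, vv k ∈ Algebra.adjoin ℂ (insert (vv 1)⁻¹ (Set.range vv)) := fun k =>
      Algebra.subset_adjoin (Set.mem_insert_of_mem _ ⟨k, rfl⟩)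
    have hi : (vv 1)⁻¹ ∈ Algebra.adjoin ℂ (insert (vv 1)⁻¹ (Set.range vv)) :=
      Algebra.subset_adjoin (Set.mem_insert _ _)
    have hz : zv ∈ Algebra.adjoin ℂ (insert (vv 1)⁻¹ (Set.range vv)) := by
      have h1 : zv = (vv 1)⁻¹ * vv 2 ^ 2 := by
        rw [← q_zv, ← mul_assoc, inv_mul_cancel₀ (vv_ne 1), one_mul]
      rw [h1]
      exact mul_mem hi (pow_mem (hm 2) _)
    rw [R1, Algebra.adjoin_le_iff]
    rintro _ (rfl | ⟨p, rfl⟩)
    · exact hm 2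
    · exact mul_mem hz (mul_mem (pow_mem (hm 0) _)
        (pow_mem (sub_mem (pow_mem (hm 0) _) (hm 1)) _))
  · intro f hf
    have h1 : Algebra.adjoin ℂ (insert (vv 1)⁻¹ (Set.range vv)) ≤ regAlg (vX 2) := by
      rw [Algebra.adjoin_le_iff]
      rintro _ (rfl | ⟨k, rfl⟩)
      · refine (vX 2).reg_inv (vv_ne 1) ?_
        rw [vX_ord]
        rfl
      · exact (vX 2).reg_of_ord (vv_nonneg (valP_divisor (prime_X 2)) k)
    exact h1 hf
  · intro f hf
    have h1 : QK ≤ Algebra.adjoin ℂ (insert (vv 1)⁻¹ (Set.range vv)) := by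
      rw [← RR_refl]
      refine RR_le _ fun k => ?_
      exact Algebra.subset_adjoin (Set.mem_insert_of_mem _ ⟨k, rfl⟩)
    obtain ⟨a, b, ha, hb, h⟩ := (valP_divisor (prime_X 2)).2 f hf
    exact ⟨a, b, h1 ha, h1 hb, h⟩

theorem v0_const : ∀ f ∈ R1, ∃ c : ℂ, (vX 2).Pos (f - algebraMap ℂ K3 c) := by
  intro f hf
  induction hf using Algebra.adjoin_induction with
  | mem f hf =>
    refine ⟨0, ?_⟩
    rw [map_zero, sub_zero]
    rcases hf with rfl | ⟨p, rfl⟩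
    · right
      rw [vX_ord]
      decide
    · right
      simp only
      rw [ord_gz, ord_zv, vX_ord, vX_ord, vX_ord]
      have h1 := yv_nonneg (v := vX 2) (vv_nonneg (valP_divisor (prime_X 2)))
      have h2 : 0 ≤ ((p.2 : ℕ) : ℤ) * (vX 2).ord yv := by positivity
      simp
      omega
  | algebraMap c => exact ⟨c, Or.inl (sub_self _)⟩
  | add f g _ _ hf hg =>
    obtain ⟨a, ha⟩ := hf
    obtain ⟨b, hb⟩ := hg
    refine ⟨a + b, ?_⟩
    rw [map_add]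
    have h3 : f + g - (algebraMap ℂ K3 a + algebraMap ℂ K3 b) =
        (f - algebraMap ℂ K3 a) + (g - algebraMap ℂ K3 b) := by ring
    rw [h3]
    exact (vX 2).pos_add ha hb
  | mul f g hf' _ hf hg =>
    obtain ⟨a, ha⟩ := hf
    obtain ⟨b, hb⟩ := hg
    refine ⟨a * b, ?_⟩
    rw [map_mul]
    have h3 : f * g - (algebraMap ℂ K3 a * algebraMap ℂ K3 b) =
        f * (g - algebraMap ℂ K3 b) + algebraMap ℂ K3 b * (f - algebraMap ℂ K3 a) := by ring
    rw [h3]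
    exact (vX 2).pos_add ((vX 2).pos_mul_left (v0_reg f hf') hb)
      ((vX 2).pos_mul_left ((vX 2).reg_const _) ha)

/-- The vertex. -/
noncomputable def P1 : Pt X1 := evalHom (vX 2) R1 v0_const

theorem R1_loc : ∀ f ∈ R1, ∃ k : ℕ, vv 1 ^ k * f ∈ QK := by
  intro f hf
  induction hf using Algebra.adjoin_induction with
  | mem f hf =>
    rcases hf with rfl | ⟨p, rfl⟩
    · exact ⟨0, mul_mem (pow_mem (vv_mem 1) _) (vv_mem 2)⟩
    · refine ⟨1, ?_⟩
      have h1 : vv 1 ^ 1 * gz p.1 p.2 = vv 2 ^ 2 * (vv 0 ^ (p.1 : ℕ) * yv ^ (p.2 : ℕ)) := by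
        rw [pow_one, gz, ← mul_assoc, q_zv]
      simp only
      rw [h1]
      exact mul_mem (pow_mem (vv_mem 2) _) (mul_mem (pow_mem (vv_mem 0) _)
        (pow_mem (sub_mem (pow_mem (vv_mem 0) _) (vv_mem 1)) _))
  | algebraMap c => exact ⟨0, mul_mem (pow_mem (vv_mem 1) _) (Subalgebra.algebraMap_mem _ _)⟩
  | add f g _ _ hf hg =>
    obtain ⟨a, ha⟩ := hf
    obtain ⟨b, hb⟩ := hg
    refine ⟨a + b, ?_⟩
    have h3 : vv 1 ^ (a + b) * (f + g) = vv 1 ^ b * (vv 1 ^ a * f) + vv 1 ^ a * (vv 1 ^ b * g) := by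
      ring
    rw [h3]
    exact add_mem (mul_mem (pow_mem (vv_mem 1) _) ha) (mul_mem (pow_mem (vv_mem 1) _) hb)
  | mul f g _ _ hf hg =>
    obtain ⟨a, ha⟩ := hf
    obtain ⟨b, hb⟩ := hg
    refine ⟨a + b, ?_⟩
    have h3 : vv 1 ^ (a + b) * (f * g) = (vv 1 ^ a * f) * (vv 1 ^ b * g) := by
      ring
    rw [h3]
    exact mul_mem ha hb

theorem Ψ_pow {f : K3} (hf : f ≠ 0) (n : ℕ) : Ψ (f ^ n) = n * Ψ f := by
  simp only [Ψ]
  rw [vC.ord_pow hf, vI.ord_pow hf, (vX 2).ord_pow hf]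
  ring

theorem Ψ_add : Additive' Ψ := ⟨fun _ _ hf hg => Ψ_mul hf hg, fun _ hc => Ψ_const hc⟩

theorem not_dvd_X {p : Q3} (hp : Prime p) (h : Ψ (io p) ≠ 0) {k : Fin 3} (hk : Ψ (vv k) = 0) :
    ¬ p ∣ X k := by
  rintro ⟨c, hc⟩
  have h1 : IsUnit c := by
    have h2 := (prime_X k).irreducible.isUnit_or_isUnit hc
    exact h2.resolve_left hp.not_isUnit
  have h3 : vv k = io p * io c := by
    rw [← map_mul, ← hc]
    rfl
  rw [h3, Ψ_mul (io_ne hp.ne_zero) (io_ne h1.ne_zero), Ψ_add.unit h1, add_zero] at hk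
  exact h hk

theorem valP_zero {p a : Q3} (hp : Prime p) (ha : a ≠ 0) (h : ¬ p ∣ a) :
    (valP K3 p hp).ord (io a) = 0 := by
  rw [io_apply, valP_ord hp ha, multiplicity_eq_zero.2 h]
  rfl

/-- The centres of the divisors contain the vertex. -/
theorem through {f : K3} (hf : f ∈ R1) (hf0 : f ≠ 0) (h0 : (vX 2).ord f = 0) :
    vC.ord f = 0 ∧ vI.ord f = 0 ∧ ∀ (p : Q3) (hp : Prime p), Ψ (io p) < 0 →
      (valP K3 p hp).ord f = 0 := by
  obtain ⟨k, hk⟩ := R1_loc f hf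
  obtain ⟨a, ha⟩ := mem_QK.1 hk
  have hk0 : vv 1 ^ k ≠ 0 := pow_ne_zero _ (vv_ne 1)
  have ha0 : a ≠ 0 := by
    rintro rfl
    rw [map_zero] at ha
    exact mul_ne_zero hk0 hf0 ha.symm
  have h1 : (vX 2).ord (io a) = 0 := by
    rw [ha, (vX 2).map_mul _ _ hk0 hf0, (vX 2).ord_pow (vv_ne 1), vX_ord, h0]
    simp
  have h2 : ¬ (X 2 : Q3) ∣ a := by
    intro h
    have h3 := ((valP_pos_iff (K := K3) (prime_X 2) a).2 h).resolve_left (io_ne ha0)
    change 0 < (vX 2).ord (io a) at h3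
    omega
  have h3 := Ψ_le ha0 h2
  have h4 : Ψ (io a) = 4 * vC.ord f + 2 * vI.ord f := by
    rw [ha, Ψ_mul hk0 hf0, Ψ_pow (vv_ne 1), Ψ_1, Ψ, h0]
    ring
  have h5 := vC.ord_nonneg hf0 (vC_reg f hf)
  have h6 := vI.ord_nonneg hf0 (vI_reg f hf)
  refine ⟨by omega, by omega, fun p hp hpn => ?_⟩
  have h7 : ¬ p ∣ a := by
    rintro ⟨b, rfl⟩
    have hb0 : b ≠ 0 := right_ne_zero_of_mul ha0
    have h8 := Ψ_le hb0 fun h => h2 (h.mul_left p)
    rw [map_mul, Ψ_mul (io_ne hp.ne_zero) (io_ne hb0)] at h4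
    omega
  have h8 := valP_zero hp ha0 h7
  have h9 := valP_zero hp (X_ne_zero 1) (not_dvd_X hp hpn.ne Ψ_1)
  have h10 : (valP K3 p hp).ord (vv 1) = 0 := h9
  rw [ha, (valP K3 p hp).map_mul _ _ hk0 hf0, (valP K3 p hp).ord_pow (vv_ne 1), h10] at h8
  simpa using h8

theorem P1_unit {f : X1.R} (hf : P1 f ≠ 0) : (f : K3) ≠ 0 ∧ (vX 2).ord (f : K3) = 0 :=
  evalHom_ord _ _ _ f hf

theorem vC_at : OnAt P1 vC := by
  refine ⟨vC_on1, fun f hf => ?_⟩
  by_contra h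
  obtain ⟨h0, h1⟩ := P1_unit h
  have h2 := (through f.2 h0 h1).1
  have h3 := hf.resolve_left h0
  omega

theorem vI_at : OnAt P1 vI := by
  refine ⟨vI_on1, fun f hf => ?_⟩
  by_contra h
  obtain ⟨h0, h1⟩ := P1_unit h
  have h2 := (through f.2 h0 h1).2.1
  have h3 := hf.resolve_left h0
  omega

theorem valP_at {p : Q3} (hp : Prime p) (hpn : Ψ (io p) < 0) : OnAt P1 (valP K3 p hp) := by
  refine ⟨valP_on1 hp (valP_zero hp (X_ne_zero 1) (not_dvd_X hp hpn.ne Ψ_1))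
    (valP_zero hp (X_ne_zero 2) (not_dvd_X hp hpn.ne Ψ_2)), fun f hf => ?_⟩
  by_contra h
  obtain ⟨h0, h1⟩ := P1_unit h
  have h2 := (through f.2 h0 h1).2.2 p hp hpn
  have h3 := hf.resolve_left h0
  omega

theorem v0_at : OverAt P1 (vX 2) := by
  refine ⟨v0_over, fun f hf => ?_⟩
  by_contra h
  obtain ⟨h0, h1⟩ := P1_unit h
  have h3 := hf.resolve_left h0
  omega

end Pool.Agent.H436R3.KT
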