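import Mathlib
import Pool.Agent.H436R3.KT.R1

/-!
# The general fibre is not of klt type
-/

set_option autoImplicit false

namespace Pool.Agent.H436R3.KT

open MvPolynomial Pool.Agent.H436R3.Fol Pool.Agent.H436R3.Can

theorem yv_D (D : Derivation ℂ K3 K3) : D yv = 4 * vv 0 ^ 3 * D (vv 0) - D (vv 1) := by
  rw [yv, map_sub, Derivation.leibniz_pow, smul_eq_mul, nsmul_eq_mul]
  push_cast
  ring

/-- The matrix of logarithmic derivatives of `x`, `y` and `T`. -/
noncomputable def AI (A : Matrix (Fin 3) (Fin 3) K3) : Matrix (Fin 3) (Fin 3) K3 :=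
  Matrix.of fun i => ![A i 0, (4 * vv 0 ^ 4 * A i 0 - vv 1 * A i 1) / yv, A i 2]

theorem AI_det (A : Matrix (Fin 3) (Fin 3) K3) : A.det = -(yv / vv 1) * (AI A).det := by
  have h1 := vv_ne 1
  have h2 := yv_ne0
  rw [Matrix.det_fin_three, Matrix.det_fin_three]
  simp only [AI, Matrix.of_apply]
  change _ = -(yv / vv 1) * (A 0 0 * ((4 * vv 0 ^ 4 * A 1 0 - vv 1 * A 1 1) / yv) * A 2 2 -
    A 0 0 * A 1 2 * ((4 * vv 0 ^ 4 * A 2 0 - vv 1 * A 2 1) / yv) -
    ((4 * vv 0 ^ 4 * A 0 0 - vv 1 * A 0 1) / yv) * A 1 0 * A 2 2 +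
    ((4 * vv 0 ^ 4 * A 0 0 - vv 1 * A 0 1) / yv) * A 1 2 * A 2 0 +
    A 0 2 * A 1 0 * ((4 * vv 0 ^ 4 * A 2 0 - vv 1 * A 2 1) / yv) -
    A 0 2 * ((4 * vv 0 ^ 4 * A 1 0 - vv 1 * A 1 1) / yv) * A 2 0)
  field_simp
  ring

/-- The coordinates `x`, `y`, `T`. -/
noncomputable def xyT : Fin 3 → K3 := ![vv 0, yv, vv 2]

theorem AI_apply (A : Matrix (Fin 3) (Fin 3) K3) (i j : Fin 3) :
    (∑ l, A i l • folT.D l) (xyT j) / xyT j = AI A i j := by
  have h := row_apply A i
  fin_cases j
  · exact h 0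
  · change (∑ l, A i l • folT.D l) yv / yv = (4 * vv 0 ^ 4 * A i 0 - vv 1 * A i 1) / yv
    congr 1
    rw [yv_D]
    have h0 := h 0
    have h1 := h 1
    rw [div_eq_iff (vv_ne _)] at h0 h1
    rw [h0, h1]
    ring
  · exact h 2

/-- The canonical order at infinity. -/
theorem I_lower {A : Matrix (Fin 3) (Fin 3) K3} (hA0 : A.det ≠ 0)
    (hA : ∀ i, Preserves vI (∑ j, A i j • folT.D j)) : 3 ≤ vI.ord A.det := by
  obtain ⟨π, hπ, h1⟩ := vI.surj
  have hc : yv / vv 1 ≠ 0 := div_ne_zero yv_ne0 (vv_ne 1)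
  have hAI : (AI A).det ≠ 0 := by
    intro h
    apply hA0
    rw [AI_det, h, mul_zero]
  have hne : ∀ j, xyT j ≠ 0 := by
    intro j
    fin_cases j
    · exact vv_ne 0
    · exact yv_ne0
    · exact vv_ne 2
  have h2 : -1 ≤ vI.ord (AI A).det := by
    refine vI.neg_one_le hπ h1 hAI ?_
    refine det_rankOne_mem vI.O (n := fun j => (vI.ord (xyT j) : K3))
      (β := fun i => (∑ l, A i l • folT.D l) π / π) ?_ (fun i => reg_pi_logDer vI (hA i) hπ h1)
      (fun j => vI.reg_intCast _) (vI.reg_of_ord (by rw [h1]; norm_num))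
    intro i j
    have h3 := logDer_sub vI (hA i) hπ h1 (hne j)
    rw [AI_apply] at h3
    exact h3
  have h3 : vI.ord A.det = 4 + vI.ord (AI A).det := by
    have hy : vI.ord yv = 0 := vI_y
    rw [AI_det A, vI.map_mul _ _ (neg_ne_zero.2 hc) hAI, vI.ord_neg hc,
      vI.ord_div yv_ne0 (vv_ne 1), hy, vI_1]
    ring
  omega

theorem mult_nonneg {X : AffVar K3} (B : EffDiv X) (v : DVal K3) : 0 ≤ B.mult v := by
  classical
  refine Finset.sum_nonneg fun i _ => ?_
  split_ifs
  · exact B.nonneg i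
  · exact le_rfl

/-- The canonical order at the divisor `T = 0`. -/
theorem v0_can {a : ℤ} (ha : IsCanOrd folT (vX 2) a) : a ≤ -1 := by
  have hv := valP_divisor (prime_X (2 : Fin 3))
  have hdet : (Matrix.diagonal (Function.update (1 : Fin 3 → K3) 2 (vv 2)⁻¹)).det = (vv 2)⁻¹ := by
    rw [Matrix.det_diagonal, Finset.prod_update_of_mem (Finset.mem_univ _)]
    simp
  refine ha.2 ⟨Matrix.diagonal (Function.update (1 : Fin 3 → K3) 2 (vv 2)⁻¹), ?_, ?_, ?_⟩
  · rw [hdet]
    exact inv_ne_zero (vv_ne 2)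
  · intro i
    rw [diag_sum]
    have hpres : ∀ k, Preserves (vX 2) (th k) := fun k =>
      preserves_of _ hv fun f hf => hv.1 _ (th_mem k hf)
    fin_cases i
    · change Preserves (vX 2) (Function.update (1 : Fin 3 → K3) 2 (vv 2)⁻¹ 0 • th 0)
      rw [Function.update_of_ne (by decide), Pi.one_apply, one_smul]
      exact hpres 0
    · change Preserves (vX 2) (Function.update (1 : Fin 3 → K3) 2 (vv 2)⁻¹ 1 • th 1)
      rw [Function.update_of_ne (by decide), Pi.one_apply, one_smul]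
      exact hpres 1
    · change Preserves (vX 2) (Function.update (1 : Fin 3 → K3) 2 (vv 2)⁻¹ 2 • th 2)
      rw [Function.update_self]
      exact preserves_of _ hv fun f hf => hv.1 _ (pd_mem 2 hf)
  · rw [hdet, (vX 2).ord_inv (vv_ne 2), vX_ord]
    rfl

theorem can_lower {v : DVal K3} {a : ℤ} (ha : IsCanOrd folT v a) : -1 ≤ a := by
  obtain ⟨⟨A, hA0, hA, hAa⟩, -⟩ := ha
  rw [← hAa]
  exact T_lower v hA0 hA

theorem can_lower_zero {v : DVal K3} {a : ℤ} (ha : IsCanOrd folT v a)
    (h0 : ∀ j, v.ord (vv j) = 0) : 0 ≤ a := by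
  obtain ⟨⟨A, hA0, hA, hAa⟩, -⟩ := ha
  rw [← hAa]
  exact T_lower_zero v hA0 hA h0

theorem can_I {a : ℤ} (ha : IsCanOrd folT vI a) : 3 ≤ a := by
  obtain ⟨⟨A, hA0, hA, hAa⟩, -⟩ := ha
  rw [← hAa]
  exact I_lower hA0 hA

/-- The general fibre is not of klt type at the vertex. -/
theorem not_klt (B : EffDiv X1) : ¬ IsKltAt B P1 := by
  classical
  rintro ⟨n, ρ, g, hg, h1, h2⟩
  obtain ⟨S, hS1, hS2, hS3⟩ := exists_primes g hg
  -- the order of the local equation
  set φ : DVal K3 → ℝ := fun v => ∑ i, ρ i * (v.ord (g i) : ℝ) with hφ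
  have e0 : φ (vX 2) < 0 := by
    obtain ⟨a, ha, ha'⟩ := h2 _ v0_at
    have h3 := v0_can ha
    have h4 : (a : ℝ) ≤ -1 := by exact_mod_cast h3
    change -1 < (a : ℝ) - φ (vX 2) at ha'
    linarith
  have eC : -1 ≤ φ vC := by
    obtain ⟨a, ha, ha'⟩ := h1 _ vC_at
    have h3 := can_lower ha
    have h4 : (-1 : ℝ) ≤ a := by exact_mod_cast h3
    have h5 := mult_nonneg B vC
    change (a : ℝ) + B.mult vC = φ vC at ha'
    linarith
  have eI : 3 ≤ φ vI := by
    obtain ⟨a, ha, ha'⟩ := h1 _ vI_at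
    have h3 := can_I ha
    have h4 : (3 : ℝ) ≤ a := by exact_mod_cast h3
    have h5 := mult_nonneg B vI
    change (a : ℝ) + B.mult vI = φ vI at ha'
    linarith
  -- the identity
  have key : 4 * φ vC + 2 * φ vI - 4 * φ (vX 2) =
      ∑ p ∈ S, (∑ i, ρ i * (ordP p (g i) : ℝ)) * (Ψ (io p) : ℝ) := by
    have h3 : ∑ p ∈ S, (∑ i, ρ i * (ordP p (g i) : ℝ)) * (Ψ (io p) : ℝ) =
        ∑ i, ρ i * (Ψ (g i) : ℝ) := by
      simp only [Finset.sum_mul]
      rw [Finset.sum_comm]
      refine Finset.sum_congr rfl fun i _ => ?_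
      have h4 := hS3 Ψ Ψ_add i
      rw [h4]
      push_cast
      rw [Finset.mul_sum]
      refine Finset.sum_congr rfl fun p _ => ?_
      ring
    rw [h3, hφ]
    simp only
    rw [Finset.mul_sum, Finset.mul_sum, Finset.mul_sum, ← Finset.sum_add_distrib,
      ← Finset.sum_sub_distrib]
    refine Finset.sum_congr rfl fun i _ => ?_
    rw [Ψ]
    push_cast
    ring
  have hterm : ∀ p ∈ S, (∑ i, ρ i * (ordP p (g i) : ℝ)) * (Ψ (io p) : ℝ) ≤
      if Associated p (X 0) then 2 else 0 := by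
    intro p hpS
    have hp := hS1 p hpS
    have hφp : (∑ i, ρ i * (ordP p (g i) : ℝ)) = φ (valP K3 p hp) := rfl
    rw [hφp]
    by_cases h2p : (X 2 : Q3) ∣ p
    · -- `p` is the variable `T`
      have h3 : Ψ (io p) = 0 := by
        obtain ⟨c, hc⟩ := h2p
        have h4 : IsUnit c := (hp.irreducible.isUnit_or_isUnit hc).resolve_left
          (prime_X 2).not_isUnit
        have h5 : io p = vv 2 * io c := by
          rw [hc, map_mul]
          rfl
        rw [h5, Ψ_mul (vv_ne 2) (io_ne h4.ne_zero), Ψ_2, Ψ_add.unit h4, add_zero]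
      rw [h3, Int.cast_zero, mul_zero]
      split_ifs <;> norm_num
    · have h3 := Ψ_le hp.ne_zero h2p
      rcases h3.eq_or_lt with h4 | h4
      · rw [h4, Int.cast_zero, mul_zero]
        split_ifs <;> norm_num
      · obtain ⟨a, ha, ha'⟩ := h1 _ (valP_at hp h4)
        have h5 := mult_nonneg B (valP K3 p hp)
        change (a : ℝ) + B.mult (valP K3 p hp) = φ (valP K3 p hp) at ha'
        have hneg : (Ψ (io p) : ℝ) < 0 := by exact_mod_cast h4
        split_ifs with hx
        · have h6 := can_lower ha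
          have h7 : (-1 : ℝ) ≤ a := by exact_mod_cast h6
          have h8 : Ψ (io p) = -2 := by
            obtain ⟨u, hu⟩ := hx
            have h9 : vv 0 = io p * io u := by
              rw [← map_mul, hu]
              rfl
            have h10 := Ψ_0
            rw [h9, Ψ_mul (io_ne hp.ne_zero) (io_ne u.isUnit.ne_zero), Ψ_add.unit u.isUnit,
              add_zero] at h10
            exact h10
          rw [h8]
          push_cast
          linarith
        · have hx' : ¬ p ∣ X 0 := by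
            intro h
            exact hx (hp.associated_of_dvd (prime_X 0) h)
          have h6 := can_lower_zero ha (by
            intro j
            fin_cases j
            · exact valP_zero hp (X_ne_zero 0) hx'
            · exact valP_zero hp (X_ne_zero 1) (not_dvd_X hp h4.ne Ψ_1)
            · exact valP_zero hp (X_ne_zero 2) (not_dvd_X hp h4.ne Ψ_2))
          have h7 : (0 : ℝ) ≤ a := by exact_mod_cast h6
          have h8 : 0 ≤ φ (valP K3 p hp) := by linarith
          exact mul_nonpos_of_nonneg_of_nonpos h8 hneg.le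
  have hsum : ∑ p ∈ S, (if Associated p (X 0 : Q3) then (2 : ℝ) else 0) ≤ 2 := by
    rw [← Finset.sum_filter, Finset.sum_const, nsmul_eq_mul]
    have hcard : (S.filter fun p => Associated p (X 0 : Q3)).card ≤ 1 := by
      rw [Finset.card_le_one]
      intro p hp q hq
      rw [Finset.mem_filter] at hp hq
      exact hS2 p hp.1 q hq.1 (hp.2.trans hq.2.symm)
    have h3 : ((S.filter fun p => Associated p (X 0 : Q3)).card : ℝ) ≤ 1 := by
      exact_mod_cast hcard
    linarith
  have h3 := Finset.sum_le_sum hterm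
  rw [← key] at h3
  linarith

theorem not_kltType : ¬ IsKltType X1 := fun ⟨_, B, hB⟩ => not_klt B (hB P1)

end Pool.Agent.H436R3.KT
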