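import Mathlib
import Pool.Agent.H436R3.KT.CanT
import Pool.Agent.H436R3.KT.NotKlt

/-!
# The special fibre
-/

set_option autoImplicit false

namespace Pool.Agent.H436R3.KT

open MvPolynomial Pool.Agent.H436R3.Fol Pool.Agent.H436R3.Can

/-- The chart `ℂ [x, T, z]`. -/
def pid : MP := ⟨![![1,0,0], ![0,1,0], ![0,0,1]], ![![1,0,0], ![0,1,0], ![0,0,1]],
  by decide +kernel, by decide +kernel⟩

/-- The chart `ℂ [1 / x, T, z x ^ 8]`. -/
def p2 : MP := ⟨![![-1,0,0], ![0,1,0], ![8,0,1]], ![![-1,0,0], ![0,1,0], ![8,0,1]],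
  by decide +kernel, by decide +kernel⟩

/-- The monomials `z x ^ k`. -/
noncomputable def gk (k : ℕ) : K3 := vv 2 * vv 0 ^ k

/-- The generators of the coordinate ring. -/
noncomputable def G0 : Set K3 := insert (vv 1) (Set.range fun k : Fin 9 => gk k)

/-- The coordinate ring of the special fibre, the product of the cone over the rational normal
curve of degree `8` and a line. -/
noncomputable def R0 : Subalgebra ℂ K3 := Algebra.adjoin ℂ G0

theorem G0_finite : G0.Finite := (Set.finite_range _).insert _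

theorem T_mem0 : vv 1 ∈ R0 := Algebra.subset_adjoin (Set.mem_insert _ _)

theorem gk_mem {k : ℕ} (hk : k ≤ 8) : gk k ∈ R0 :=
  Algebra.subset_adjoin (Set.mem_insert_of_mem _ ⟨⟨k, by omega⟩, rfl⟩)

theorem z_mem0 : vv 2 ∈ R0 := by
  have h := gk_mem (k := 0) (by norm_num)
  simpa [gk] using h

theorem mono_mem0 (a b c : ℕ) (h : a ≤ 8 * c) : vv 0 ^ a * vv 1 ^ b * vv 2 ^ c ∈ R0 := by
  induction c generalizing a with
  | zero =>
    have ha : a = 0 := by omega
    rw [ha, pow_zero, pow_zero, one_mul, mul_one]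
    exact pow_mem T_mem0 _
  | succ c ih =>
    by_cases ha : a ≤ 8
    · have h1 : vv 0 ^ a * vv 1 ^ b * vv 2 ^ (c + 1) = gk a * (vv 0 ^ 0 * vv 1 ^ b * vv 2 ^ c) := by
        rw [gk]
        ring
      rw [h1]
      exact mul_mem (gk_mem ha) (ih 0 (Nat.zero_le _))
    · obtain ⟨e, rfl⟩ := Nat.exists_eq_add_of_le (not_le.1 ha).le
      have h1 : vv 0 ^ (8 + e) * vv 1 ^ b * vv 2 ^ (c + 1) =
          gk 8 * (vv 0 ^ e * vv 1 ^ b * vv 2 ^ c) := by
        rw [gk]
        ring
      rw [h1]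
      exact mul_mem (gk_mem le_rfl) (ih e (by omega))

theorem R0_le_QK : R0 ≤ QK := by
  rw [R0, Algebra.adjoin_le_iff]
  rintro _ (rfl | ⟨k, rfl⟩)
  · exact vv_mem 1
  · exact mul_mem (vv_mem 2) (pow_mem (vv_mem 0) _)

theorem R0_le_p2 : R0 ≤ RR p2.τ := by
  rw [R0, Algebra.adjoin_le_iff]
  rintro _ (rfl | ⟨k, rfl⟩)
  · change vv 1 ∈ RR p2.τ
    rw [mem_RR, ← mono_ev, MP.τs_mono]
    apply mono_mem_QK
    intro k
    fin_cases k <;> simp [mulv, ev, p2]
  · change vv 2 * vv 0 ^ (k : ℕ) ∈ RR p2.τ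
    have h1 : vv 2 * vv 0 ^ (k : ℕ) = mono ![(k : ℤ), 0, 1] := by
      simp [mono]
      ring
    rw [h1, mem_RR, MP.τs_mono]
    apply mono_mem_QK
    have hk : ((k : ℕ) : ℤ) ≤ 8 := by
      have := k.2
      omega
    intro l
    fin_cases l
    · simp [mulv, p2]
      omega
    · simp [mulv, p2]
    · simp [mulv, p2]

theorem mem_R0 {f : K3} (h1 : f ∈ QK) (h2 : f ∈ RR p2.τ) : f ∈ R0 := by
  obtain ⟨q, rfl⟩ := mem_QK.1 h1
  by_cases hq : q = 0
  · rw [hq, map_zero]
    exact zero_mem _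
  have h3 := (vM p2 0).ord_nonneg (io_ne hq) ((vM_on p2 0).1 _ h2)
  have h4 : io q = ∑ m ∈ q.support, io (monomial m (q.coeff m)) := by
    conv_lhs => rw [q.as_sum]
    rw [map_sum]
  rw [h4]
  refine sum_mem fun m hm => ?_
  rw [io_monomial]
  refine mul_mem (Subalgebra.algebraMap_mem _ _) (mono_mem0 _ _ _ ?_)
  have h5 := vM_le p2 0 (mem_support_iff.1 hm)
  have h6 : mulv (fun l => (m l : ℤ)) p2.N 0 = -(m 0 : ℤ) + 8 * m 2 := by
    simp [mulv, p2]
    ring
  rw [h6] at h5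
  omega

theorem z_refl0 (k : Fin 3) : vv 2 * (AlgEquiv.refl : K3 ≃ₐ[ℂ] K3) (vv k) ∈ R0 := by
  rw [AlgEquiv.coe_refl, id]
  fin_cases k
  · have h := gk_mem (k := 1) (by norm_num)
    simpa [gk] using h
  · exact mul_mem z_mem0 T_mem0
  · exact mul_mem z_mem0 z_mem0

/-- The special fibre. -/
noncomputable def X0 : AffVar K3 where
  R := R0
  fg := ⟨G0_finite.toFinset, by rw [Set.Finite.coe_toFinset]; rfl⟩
  frac := frac_of z_mem0 (vv_ne 2) AlgEquiv.refl z_refl0
  d := 3
  T := folT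
  top := folT_space

theorem R0_normal (f : K3) (hf : IsIntegral R0 f) : f ∈ R0 := by
  obtain ⟨p, hp, h0⟩ := hf
  refine mem_R0 ?_ ?_
  · exact mem_QK_of_integral (algebraMap R0 K3) (fun s => R0_le_QK s.2) hp h0
  · rw [mem_RR]
    refine mem_QK_of_integral ((p2.τ.symm : K3 →+* K3).comp (algebraMap R0 K3))
      (fun s => (mem_RR p2.τ).1 (R0_le_p2 s.2)) hp ?_
    have h1 : (p2.τ.symm : K3 →+* K3) (p.eval₂ (algebraMap R0 K3) f) = 0 := by
      rw [h0, map_zero]
    rw [Polynomial.hom_eval₂] at h1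
    exact h1

/-- The special fibre as a normal variety. -/
noncomputable def X0n : NormalAffine K3 where
  R := R0
  fg := X0.fg
  frac := X0.frac
  normal := R0_normal

theorem gk_ne (k : ℕ) : gk k ≠ 0 := mul_ne_zero (vv_ne 2) (pow_ne_zero _ (vv_ne 0))

theorem ord_gk (v : DVal K3) (k : ℕ) : v.ord (gk k) = v.ord (vv 2) + k * v.ord (vv 0) := by
  rw [gk, v.map_mul _ _ (vv_ne 2) (pow_ne_zero _ (vv_ne 0)), v.ord_pow (vv_ne 0)]

/-- The local equation. -/
noncomputable def ge : K3 := mono ![4, 4, 1]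

theorem ord_ge (v : DVal K3) :
    v.ord ge = 4 * v.ord (vv 0) + 4 * v.ord (vv 1) + v.ord (vv 2) := by
  rw [ge, ord_mono]
  simp

section divisors

variable {v : DVal K3}

theorem gk_nonneg (hv : ∀ f ∈ R0, v.Reg f) {k : ℕ} (hk : k ≤ 8) :
    0 ≤ v.ord (vv 2) + k * v.ord (vv 0) := by
  rw [← ord_gk]
  exact v.ord_nonneg (gk_ne k) (hv _ (gk_mem hk))

theorem T_nonneg (hv : ∀ f ∈ R0, v.Reg f) : 0 ≤ v.ord (vv 1) :=
  v.ord_nonneg (vv_ne 1) (hv _ T_mem0)

/-- Every element of the ring in the ideal of `x`-divisible polynomials is in the centre. -/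
theorem not_both (hv : IsLocalRing' R0 v) (h0 : 0 < v.ord (vv 2))
    (h8 : 0 < v.ord (vv 2) + 8 * v.ord (vv 0)) : False := by
  have hr := hv.1
  have hT := T_nonneg hr
  have h1 : ∀ f : K3, f ≠ 0 → v.ord f = (vX 0).ord f := by
    intro f hf
    refine agree_of_key hv ?_ ?_ hf
    · intro f hf
      exact (valP_divisor (prime_X 0)).1 f (R0_le_QK hf)
    · intro f hf hpos
      obtain ⟨q, rfl⟩ := mem_QK.1 (R0_le_QK hf)
      have hdvd := (valP_pos_iff (K := K3) (prime_X 0) q).1 hpos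
      by_cases hq : q = 0
      · rw [hq, map_zero]
        exact Or.inl rfl
      have h3 := (vM p2 0).ord_nonneg (io_ne hq) ((vM_on p2 0).1 _ (R0_le_p2 hf))
      have h4 : io q = ∑ m ∈ q.support, io (monomial m (q.coeff m)) := by
        conv_lhs => rw [q.as_sum]
        rw [map_sum]
      rw [h4]
      have hsum : ∀ s : Finset (Fin 3 →₀ ℕ), s ⊆ q.support →
          v.Pos (∑ m ∈ s, io (monomial m (q.coeff m))) := by
        classical
        intro s
        induction s using Finset.induction_on with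
        | empty => intro _; exact Or.inl Finset.sum_empty
        | insert m s hms ih =>
          intro hs
          rw [Finset.sum_insert hms]
          refine v.pos_add ?_ (ih fun x hx => hs (Finset.mem_insert_of_mem hx))
          have hm := mem_support_iff.1 (hs (Finset.mem_insert_self m s))
          have h5 := vM_le p2 0 hm
          have h6 : mulv (fun l => (m l : ℤ)) p2.N 0 = -(m 0 : ℤ) + 8 * m 2 := by
            simp [mulv, p2]
            ring
          rw [h6] at h5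
          have h7 := vX_le (i := 0) hm
          have h8' : 0 < (vX 0).ord (io q) := hpos.resolve_left (io_ne hq)
          have h9 : 0 < (m 0 : ℤ) := lt_of_lt_of_le h8' h7
          have h10 : (m 0 : ℤ) ≤ 8 * m 2 := by omega
          have h11 : 0 < (m 2 : ℤ) := by omega
          rw [io_mono]
          refine v.pos_mul_left (v.reg_const _) (Or.inr ?_)
          rw [ord_mono]
          -- `8 (a x + c z) = a (z + 8 x) + (8 c - a) z`
          have h12 : 0 ≤ (m 0 : ℤ) * (v.ord (vv 2) + 8 * v.ord (vv 0)) := by positivity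
          have h13 : 0 ≤ (8 * (m 2 : ℤ) - m 0) * v.ord (vv 2) :=
            mul_nonneg (by omega) h0.le
          have h14 : 0 ≤ (m 1 : ℤ) * v.ord (vv 1) := by positivity
          have h15 : 0 < (m 0 : ℤ) * (v.ord (vv 2) + 8 * v.ord (vv 0)) := mul_pos h9 h8
          nlinarith
      exact hsum _ le_rfl
  have h2 := h1 _ (vv_ne 2)
  rw [vX_ord] at h2
  rw [h2] at h0
  exact absurd h0 (by decide)

theorem on_pid (hv : IsLocalRing' R0 v) (h : v.ord (vv 2) = 0) : IsLocalRing' (RR pid.τ) v := by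
  have e : ∀ k, pid.τ (vv k) = vv k := by
    intro k
    rw [MP.τ_vv, ← mono_ev]
    apply mono_congr
    intro l
    fin_cases k <;> fin_cases l <;> rfl
  have hx := gk_nonneg hv.1 (k := 1) (by norm_num)
  have hT := T_nonneg hv.1
  have hr : ∀ f ∈ RR pid.τ, v.Reg f := by
    intro f hf
    refine RR_reg pid.τ (fun j => ?_) hf
    rw [e]
    fin_cases j
    · change 0 ≤ v.ord (vv 0)
      rw [h] at hx
      push_cast at hx
      linarith
    · exact hT
    · exact h.ge
  have hle : R0 ≤ RR pid.τ := by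
    intro f hf
    obtain ⟨q, rfl⟩ := mem_QK.1 (R0_le_QK hf)
    have h1 : RR pid.τ = QK := by
      apply le_antisymm
      · refine RR_le _ fun i => ?_
        rw [e]
        exact vv_mem i
      · intro g hg
        obtain ⟨q, rfl⟩ := mem_QK.1 hg
        rw [mem_RR']
        refine ⟨q, ?_⟩
        have h2 : (pid.τ : K3 →ₐ[ℂ] K3) = AlgHom.id ℂ K3 := algHom_ext_vv e
        exact (DFunLike.congr_fun h2 (io q)).symm
    rw [h1]
    exact io_mem q
  refine ⟨hr, fun f hf => ?_⟩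
  obtain ⟨a, b, ha, hb, h3⟩ := hv.2 f hf
  exact ⟨a, b, hle ha, hle hb, h3⟩

theorem on_p2 (hv : IsLocalRing' R0 v) (h : v.ord (vv 2) + 8 * v.ord (vv 0) = 0) :
    IsLocalRing' (RR p2.τ) v := by
  have hx := gk_nonneg hv.1 (k := 7) (by norm_num)
  have hT := T_nonneg hv.1
  have hr : ∀ f ∈ RR p2.τ, v.Reg f := by
    intro f hf
    refine RR_reg p2.τ (fun j => ?_) hf
    rw [MP.τ_vv, ord_mono]
    fin_cases j
    · simp [p2]
      push_cast at hx
      linarith
    · simp [p2]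
      exact hT
    · simp [p2]
      linarith
  refine ⟨hr, fun f hf => ?_⟩
  obtain ⟨a, b, ha, hb, h3⟩ := hv.2 f hf
  exact ⟨a, b, R0_le_p2 ha, R0_le_p2 hb, h3⟩

theorem um_pid : UM pid := Or.inl (by decide +kernel)

theorem um_p2 : UM p2 := Or.inr (by decide +kernel)

/-- The canonical orders at the divisors on the special fibre. -/
theorem can0 (hv : IsLocalRing' R0 v) : ∃ a : ℤ, IsCanOrd folT v a ∧ 4 * a = -v.ord ge := by
  have h0 := gk_nonneg hv.1 (k := 0) (by norm_num)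
  have h8 := gk_nonneg hv.1 (k := 8) (by norm_num)
  push_cast at h0 h8
  rw [zero_mul, add_zero] at h0
  rcases h0.eq_or_lt with h1 | h1
  · obtain ⟨a, ha, ha'⟩ := canT' pid um_pid (on_pid hv h1.symm)
    refine ⟨a, ha, ?_⟩
    rw [ha', ord_gT', ord_ge, ord_mono, ord_mono, ord_mono, ← h1]
    simp [pid]
    ring
  · rcases h8.eq_or_lt with h2 | h2
    · obtain ⟨a, ha, ha'⟩ := canT' p2 um_p2 (on_p2 hv h2.symm)
      refine ⟨a, ha, ?_⟩
      rw [ha', ord_gT', ord_ge, ord_mono, ord_mono, ord_mono]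
      simp [p2]
      linarith
    · exact absurd (not_both hv h1 h2) id

theorem lower0 (hv : ∀ f ∈ R0, v.Reg f) : ∃ c : ℤ, -4 < 4 * c + v.ord ge ∧
    ∀ A : Matrix (Fin 3) (Fin 3) K3, A.det ≠ 0 →
      (∀ i, Preserves v (∑ j, A i j • folT.D j)) → c ≤ v.ord A.det := by
  have h0 := gk_nonneg hv (k := 0) (by norm_num)
  have h8 := gk_nonneg hv (k := 8) (by norm_num)
  have hT := T_nonneg hv
  push_cast at h0 h8
  rw [zero_mul, add_zero] at h0
  rw [ord_ge]
  by_cases h : 4 * v.ord (vv 0) + 4 * v.ord (vv 1) + v.ord (vv 2) = 0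
  · refine ⟨0, by omega, fun A hA0 hA => T_lower_zero v hA0 hA ?_⟩
    intro j
    fin_cases j
    · change v.ord (vv 0) = 0
      omega
    · change v.ord (vv 1) = 0
      omega
    · change v.ord (vv 2) = 0
      omega
  · exact ⟨-1, by omega, fun A hA0 hA => T_lower v hA0 hA⟩

end divisors

/-- The zero divisor. -/
noncomputable def B0 : EffDiv X0 where
  n := 0
  D := Fin.elim0
  on := fun i => i.elim0
  a := Fin.elim0
  nonneg := fun i => i.elim0

theorem B0_mult (v : DVal K3) : B0.mult v = 0 := by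
  unfold EffDiv.mult
  exact Finset.sum_eq_zero fun i _ => i.elim0

/-- The special fibre is klt. -/
theorem klt0 (P : Pt X0) : IsKltAt B0 P := by
  refine ⟨1, fun _ => -(1 / 4), fun _ => ge, fun _ => mono_ne _, fun v hv => ?_, fun v hv => ?_⟩
  · obtain ⟨a, ha, ha'⟩ := can0 hv.1
    refine ⟨a, ha, ?_⟩
    have h1 : (4 : ℝ) * a = -(v.ord ge : ℝ) := by exact_mod_cast ha'
    rw [B0_mult, Fin.sum_univ_one]
    linarith
  · obtain ⟨S, hS1, hS2, hS3⟩ := hv.1
    obtain ⟨c, hc, hc'⟩ := lower0 (v := v) fun f hf => hS3.1 f (hS2 hf)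
    obtain ⟨a, ha, hag⟩ := exists_isCanOrd (X := X0n) v ⟨S, hS1, hS2, hS3⟩ folT hc'
    refine ⟨a, ha, ?_⟩
    have h1 : -4 < 4 * a + v.ord ge := by omega
    have h2 : (-4 : ℝ) < 4 * a + (v.ord ge : ℝ) := by exact_mod_cast h1
    rw [Fin.sum_univ_one]
    linarith

theorem kltType0 : IsKltType X0 := ⟨R0_normal, B0, klt0⟩

end Pool.Agent.H436R3.KT
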