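import Mathlib
import Pool.Agent.H436R3.KT.R0

/-!
# The section ring of `O (4, 1)` on `P^1 × P^1`
-/

set_option autoImplicit false

namespace Pool.Agent.H436R3.KT

open MvPolynomial Pool.Agent.H436R3.Fol Pool.Agent.H436R3.Can

/-- The chart `ℂ [1 / x, y, z x ^ 4]`. -/
def q1 : MP := ⟨![![-1,0,0], ![0,1,0], ![4,0,1]], ![![-1,0,0], ![0,1,0], ![4,0,1]],
  by decide +kernel, by decide +kernel⟩

/-- The chart `ℂ [x, 1 / y, z y]`. -/
def q2 : MP := ⟨![![1,0,0], ![0,-1,0], ![0,1,1]], ![![1,0,0], ![0,-1,0], ![0,1,1]],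
  by decide +kernel, by decide +kernel⟩

/-- The orders at `x = ∞` and `y = ∞`. -/
noncomputable def w1 : DVal K3 := vM q1 0
noncomputable def w2 : DVal K3 := vM q2 1

theorem w1_mono (e : Fin 3 → ℤ) : w1.ord (mono e) = -e 0 + 4 * e 2 := by
  rw [w1, vM_mono]
  simp [mulv, q1]
  ring

theorem w2_mono (e : Fin 3 → ℤ) : w2.ord (mono e) = -e 1 + e 2 := by
  rw [w2, vM_mono]
  simp [mulv, q2]

theorem w1_le {P : Q3} {m : Fin 3 →₀ ℕ} (hm : P.coeff m ≠ 0) :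
    w1.ord (io P) ≤ -(m 0 : ℤ) + 4 * m 2 := by
  have h := vM_le q1 0 hm
  have h1 : mulv (fun l => (m l : ℤ)) q1.N 0 = -(m 0 : ℤ) + 4 * m 2 := by
    simp [mulv, q1]
    ring
  rwa [h1] at h

theorem w2_le {P : Q3} {m : Fin 3 →₀ ℕ} (hm : P.coeff m ≠ 0) :
    w2.ord (io P) ≤ -(m 1 : ℤ) + m 2 := by
  have h := vM_le q2 1 hm
  have h1 : mulv (fun l => (m l : ℤ)) q2.N 1 = -(m 1 : ℤ) + m 2 := by
    simp [mulv, q2]
  rwa [h1] at h

/-- The section ring of `O (4, 1)` on `P^1 × P^1`. -/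
noncomputable def Am : Subalgebra ℂ Q3 := (regAlg w1 ⊓ regAlg w2).comap io

theorem mem_Am {f : Q3} : f ∈ Am ↔ w1.Reg (io f) ∧ w2.Reg (io f) := Iff.rfl

theorem Am_supp {f : Q3} (hf : f ∈ Am) {m : Fin 3 →₀ ℕ} (hm : f.coeff m ≠ 0) :
    m 0 ≤ 4 * m 2 ∧ m 1 ≤ m 2 := by
  have hf0 : f ≠ 0 := by
    rintro rfl
    exact hm (coeff_zero m)
  have h1 := w1.ord_nonneg (io_ne hf0) hf.1
  have h2 := w2.ord_nonneg (io_ne hf0) hf.2
  have h3 := w1_le hm
  have h4 := w2_le hm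
  constructor <;> omega

/-- The generators. -/
noncomputable def ga (i j : ℕ) : Q3 := X 2 * (X 0 ^ i * X 1 ^ j)

/-- The set of generators. -/
noncomputable def GA : Set Q3 := Set.range fun p : Fin 5 × Fin 2 => ga p.1 p.2

theorem ga_io (i j : ℕ) : io (ga i j) = mono ![(i : ℤ), (j : ℤ), 1] := by
  rw [ga, map_mul, map_mul, map_pow, map_pow]
  change vv 2 * (vv 0 ^ i * vv 1 ^ j) = _
  simp [mono]
  ring

theorem ga_mem {i j : ℕ} (hi : i ≤ 4) (hj : j ≤ 1) : ga i j ∈ Am := by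
  rw [mem_Am, ga_io]
  constructor
  · right
    rw [w1_mono]
    simp
    omega
  · right
    rw [w2_mono]
    simp
    omega

theorem ga_adj {i j : ℕ} (hi : i ≤ 4) (hj : j ≤ 1) : ga i j ∈ Algebra.adjoin ℂ GA :=
  Algebra.subset_adjoin ⟨(⟨i, by omega⟩, ⟨j, by omega⟩), rfl⟩

theorem mono_adj (a b c : ℕ) (h : a ≤ 4 * c) (h' : b ≤ c) :
    (X 0 ^ a * X 1 ^ b * X 2 ^ c : Q3) ∈ Algebra.adjoin ℂ GA := by
  induction c generalizing a b with
  | zero =>
    have ha : a = 0 := by omega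
    have hb : b = 0 := by omega
    rw [ha, hb, pow_zero, pow_zero, pow_zero, one_mul, mul_one]
    exact one_mem _
  | succ c ih =>
    obtain ⟨i, a', hi, ha', rfl⟩ : ∃ i a', i ≤ 4 ∧ a' ≤ 4 * c ∧ a = i + a' := by
      by_cases h1 : a ≤ 4
      · exact ⟨a, 0, h1, Nat.zero_le _, rfl⟩
      · exact ⟨4, a - 4, le_rfl, by omega, by omega⟩
    obtain ⟨j, b', hj, hb', rfl⟩ : ∃ j b', j ≤ 1 ∧ b' ≤ c ∧ b = j + b' := by
      by_cases h1 : b ≤ 1
      · exact ⟨b, 0, h1, Nat.zero_le _, rfl⟩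
      · exact ⟨1, b - 1, le_rfl, by omega, by omega⟩
    have h1 : (X 0 ^ (i + a') * X 1 ^ (j + b') * X 2 ^ (c + 1) : Q3) =
        ga i j * (X 0 ^ a' * X 1 ^ b' * X 2 ^ c) := by
      rw [ga]
      ring
    rw [h1]
    exact mul_mem (ga_adj hi hj) (ih _ _ ha' hb')

theorem Am_eq : Am = Algebra.adjoin ℂ GA := by
  apply le_antisymm
  · intro f hf
    rw [f.as_sum]
    refine sum_mem fun m hm => ?_
    have h := Am_supp hf (mem_support_iff.1 hm)
    rw [monomial_eq, Finsupp.prod_fintype _ _ (by simp), Fin.prod_univ_three]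
    exact mul_mem (Subalgebra.algebraMap_mem _ _) (mono_adj _ _ _ h.1 h.2)
  · rw [Algebra.adjoin_le_iff]
    rintro _ ⟨p, rfl⟩
    exact ga_mem (by omega) (by omega)

theorem Am_fg : Am.FG := by
  rw [Am_eq]
  exact ⟨(Set.finite_range _).toFinset, by rw [Set.Finite.coe_toFinset]; rfl⟩

/-- The section `h = z (x ^ 4 - y)`. -/
noncomputable def hq : Q3 := X 2 * (X 0 ^ 4 - X 1)

theorem hq_mem : hq ∈ Am := by
  have h1 : hq = ga 4 0 - ga 0 1 := by
    simp only [hq, ga]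
    ring
  rw [h1]
  exact sub_mem (ga_mem le_rfl (by norm_num)) (ga_mem (by norm_num) le_rfl)

/-- The section as an element of the ring. -/
noncomputable def hA : Am := ⟨hq, hq_mem⟩

theorem hq_ne : hq ≠ 0 := by
  intro h
  have h1 : io hq = vv 2 * yv := by
    rw [hq, map_mul, map_sub, map_pow]
    rfl
  rw [h, map_zero] at h1
  exact mul_ne_zero (vv_ne 2) yv_ne0 h1.symm

/-- The substitution `y = x ^ 4`. -/
noncomputable def εs : Q3 →ₐ[ℂ] Q3 := aeval ![X 0, X 0 ^ 4, X 2]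

theorem dvd_sub_ε (q : Q3) : (X 0 ^ 4 - X 1 : Q3) ∣ q - εs q := by
  induction q using MvPolynomial.induction_on with
  | C a =>
    have h : εs (C a) = C a := by
      rw [← MvPolynomial.algebraMap_eq]
      exact εs.commutes a
    rw [h, sub_self]
    exact dvd_zero _
  | add p q hp hq =>
    have h : p + q - εs (p + q) = (p - εs p) + (q - εs q) := by
      rw [map_add]
      ring
    rw [h]
    exact dvd_add hp hq
  | mul_X p j hp =>
    have h : p * X j - εs (p * X j) = (p - εs p) * X j + εs p * (X j - εs (X j)) := by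
      rw [map_mul]
      ring
    rw [h]
    refine dvd_add (hp.mul_right _) (Dvd.dvd.mul_left ?_ _)
    rw [εs, aeval_X]
    fin_cases j
    · change (X 0 ^ 4 - X 1 : Q3) ∣ X 0 - X 0
      rw [sub_self]
      exact dvd_zero _
    · change (X 0 ^ 4 - X 1 : Q3) ∣ X 1 - X 0 ^ 4
      exact ⟨-1, by ring⟩
    · change (X 0 ^ 4 - X 1 : Q3) ∣ X 2 - X 2
      rw [sub_self]
      exact dvd_zero _

theorem w1_y : w1.ord yv = -4 := by
  have h0 : w1.ord (vv 0) = -1 := by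
    rw [← mono_ev, w1_mono]
    rfl
  have h1 : w1.ord (vv 1) = 0 := by
    rw [← mono_ev, w1_mono]
    rfl
  rw [yv, sub_eq_add_neg, (ord_add_of_lt _ (pow_ne_zero _ (vv_ne 0)) (neg_ne_zero.2 (vv_ne 1)) ?_).2,
    DVal.ord_pow _ (vv_ne 0), h0]
  · norm_num
  · rw [DVal.ord_pow _ (vv_ne 0), h0, DVal.ord_neg _ (vv_ne 1), h1]
    norm_num

theorem w2_y : w2.ord yv = -1 := by
  have h0 : w2.ord (vv 0) = 0 := by
    rw [← mono_ev, w2_mono]
    rfl
  have h1 : w2.ord (vv 1) = -1 := by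
    rw [← mono_ev, w2_mono]
    rfl
  rw [yv, sub_eq_add_neg, add_comm,
    (ord_add_of_lt _ (neg_ne_zero.2 (vv_ne 1)) (pow_ne_zero _ (vv_ne 0)) ?_).2,
    DVal.ord_neg _ (vv_ne 1), h1]
  rw [DVal.ord_pow _ (vv_ne 0), h0, DVal.ord_neg _ (vv_ne 1), h1]
  norm_num

/-- The kernel of the restriction to the curve. -/
theorem hA_dvd {a : Am} (ha : εs (a : Q3) = 0) : hA ∣ a := by
  by_cases ha0 : (a : Q3) = 0
  · have : a = 0 := Subtype.ext ha0
    rw [this]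
    exact dvd_zero _
  have h1 := dvd_sub_ε (a : Q3)
  rw [ha, sub_zero] at h1
  obtain ⟨b, hb⟩ := h1
  have hb0 : b ≠ 0 := by
    rintro rfl
    rw [mul_zero] at hb
    exact ha0 hb
  have h2 : io (a : Q3) = yv * io b := by
    rw [hb, map_mul, map_sub, map_pow]
    rfl
  have e1 := w1.ord_nonneg (io_ne ha0) a.2.1
  have e2 := w2.ord_nonneg (io_ne ha0) a.2.2
  rw [h2, w1.map_mul _ _ yv_ne0 (io_ne hb0), w1_y] at e1
  rw [h2, w2.map_mul _ _ yv_ne0 (io_ne hb0), w2_y] at e2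
  have h3 : (X 2 : Q3) ∣ b := by
    apply X_dvd_of
    intro m hm
    have h4 := w2_le hm
    omega
  obtain ⟨a', rfl⟩ := h3
  have ha' : a' ≠ 0 := right_ne_zero_of_mul hb0
  have h4 : io (X 2 * a') = vv 2 * io a' := by
    rw [map_mul]
    rfl
  have f1 : w1.ord (vv 2) = 4 := by
    rw [← mono_ev, w1_mono]
    rfl
  have f2 : w2.ord (vv 2) = 1 := by
    rw [← mono_ev, w2_mono]
    rfl
  rw [h4, w1.map_mul _ _ (vv_ne 2) (io_ne ha'), f1] at e1
  rw [h4, w2.map_mul _ _ (vv_ne 2) (io_ne ha'), f2] at e2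
  have h5 : a' ∈ Am := by
    refine mem_Am.2 ⟨Or.inr ?_, Or.inr ?_⟩
    · omega
    · omega
  refine ⟨⟨a', h5⟩, Subtype.ext ?_⟩
  change (a : Q3) = hq * a'
  rw [hb, hq]
  ring

end Pool.Agent.H436R3.KT
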