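import Mathlib
import Pool.Agent.H436R3.KT.RingA

/-!
# The family
-/

set_option autoImplicit false

namespace Pool.Agent.H436R3.KT

open Pool.Agent.H436R3.Fol Pool.Agent.H436R3.Can

/-- The section ring. -/
def AmT : Type := Am

noncomputable instance : CommRing AmT := inferInstanceAs (CommRing Am)
noncomputable instance : Algebra ℂ AmT := inferInstanceAs (Algebra ℂ Am)
instance : IsDomain AmT := inferInstanceAs (IsDomain Am)

/-- The inclusion in the polynomial ring. -/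
noncomputable def valT : AmT →ₐ[ℂ] Q3 := Am.val

theorem valT_inj : Function.Injective valT := Subtype.val_injective

/-- The section `h`. -/
noncomputable def hT : AmT := hA

/-- The generators. -/
noncomputable def gT4 (i j : ℕ) (hi : i ≤ 4) (hj : j ≤ 1) : AmT :=
  (⟨ga i j, ga_mem hi hj⟩ : Am)

/-- The ring `A [T]`. -/
abbrev BT : Type := Polynomial AmT

/-- The ring `A [T] [t]`. -/
abbrev CT : Type := Polynomial BT

/-- The equation `h - t T²`. -/
noncomputable def eqD : CT :=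
  Polynomial.C (Polynomial.C hT) - Polynomial.X * Polynomial.C (Polynomial.X ^ 2)

/-- The coordinate ring of the family. -/
def RF : Type := CT ⧸ Ideal.span {eqD}

noncomputable instance : CommRing RF := inferInstanceAs (CommRing (CT ⧸ Ideal.span {eqD}))
noncomputable instance : Algebra ℂ RF := inferInstanceAs (Algebra ℂ (CT ⧸ Ideal.span {eqD}))

/-- The projection. -/
noncomputable def mkF : CT →ₐ[ℂ] RF := Ideal.Quotient.mkₐ ℂ (Ideal.span {eqD})

theorem mkF_surj : Function.Surjective mkF := Ideal.Quotient.mkₐ_surjective _ _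

theorem mkF_zero {f : CT} : mkF f = 0 ↔ eqD ∣ f := by
  rw [← Ideal.mem_span_singleton]
  exact Ideal.Quotient.eq_zero_iff_mem

/-- The parameter. -/
noncomputable def tF : RF := mkF Polynomial.X

/-- Evaluation at `t = c`. -/
noncomputable def evl (c : ℂ) : CT →ₐ[ℂ] BT :=
  Polynomial.aevalTower (AlgHom.id ℂ BT) (algebraMap ℂ BT c)

theorem evl_eval (c : ℂ) (f : CT) : evl c f = f.eval (algebraMap ℂ BT c) := rfl

/-- The equation of the fibre. -/
noncomputable def eqc (c : ℂ) : BT := Polynomial.C hT - algebraMap ℂ BT c * Polynomial.X ^ 2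

theorem evl_eqD (c : ℂ) : evl c eqD = eqc c := by
  rw [evl_eval, eqD, Polynomial.eval_sub, Polynomial.eval_C, Polynomial.eval_mul,
    Polynomial.eval_X, Polynomial.eval_C, eqc]

theorem hA_ne : hT ≠ 0 := fun h => hq_ne (congrArg valT h)

theorem eqc_ne (c : ℂ) : eqc c ≠ 0 := by
  intro h
  have h1 := congrArg (fun p : BT => p.coeff 0) h
  simp only [eqc] at h1
  rw [Polynomial.coeff_sub, Polynomial.coeff_C_zero, Polynomial.coeff_zero,
    Polynomial.coeff_mul_X_pow'] at h1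
  simp at h1
  exact hA_ne h1

theorem X_sub_dvd {c : ℂ} {f : CT} (h : evl c f = 0) :
    ∃ f', f = (Polynomial.X - Polynomial.C (algebraMap ℂ BT c)) * f' :=
  Polynomial.dvd_iff_isRoot.2 h

theorem mk_X_sub (c : ℂ) (f : CT) : mkF
    ((Polynomial.X - Polynomial.C (algebraMap ℂ BT c)) * f) =
      (tF - algebraMap ℂ RF c) * mkF f := by
  have h : mkF (Polynomial.C (algebraMap ℂ BT c)) = algebraMap ℂ RF c := mkF.commutes c
  rw [map_mul, map_sub, h, tF]

/-- The elements `t - c` are regular. -/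
theorem regular (c : ℂ) {x : RF} (h : (tF - algebraMap ℂ RF c) * x = 0) : x = 0 := by
  obtain ⟨f, rfl⟩ := mkF_surj x
  rw [← mk_X_sub, mkF_zero] at h
  obtain ⟨g, hg⟩ := h
  have h1 := congrArg (evl c) hg
  have h2 : evl c ((Polynomial.X - Polynomial.C (algebraMap ℂ BT c)) * f) = 0 := by
    rw [evl_eval]
    simp
  rw [h2, map_mul, evl_eqD] at h1
  have h3 : evl c g = 0 := (mul_eq_zero.1 h1.symm).resolve_left (eqc_ne c)
  obtain ⟨g', rfl⟩ := X_sub_dvd h3
  have h4 : (Polynomial.X - Polynomial.C (algebraMap ℂ BT c) : CT) ≠ 0 :=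
    Polynomial.X_sub_C_ne_zero _
  have h5 : f = eqD * g' := by
    apply mul_left_cancel₀ h4
    rw [hg]
    ring
  rw [mkF_zero, h5]
  exact dvd_mul_right _ _

theorem torsion_free (n : ℕ) : ∀ s : Polynomial ℂ, s.natDegree = n → s ≠ 0 → ∀ x : RF,
    Polynomial.aeval tF s * x = 0 → x = 0 := by
  induction n with
  | zero =>
    intro s hs hs0 x hx
    rw [Polynomial.eq_C_of_natDegree_eq_zero hs] at hx hs0
    rw [Polynomial.aeval_C] at hx
    have hc : s.coeff 0 ≠ 0 := fun h => hs0 (by rw [h, Polynomial.C_0])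
    have h1 : algebraMap ℂ RF (s.coeff 0)⁻¹ * (algebraMap ℂ RF (s.coeff 0) * x) = 0 := by
      rw [hx, mul_zero]
    rwa [← mul_assoc, ← map_mul, inv_mul_cancel₀ hc, map_one, one_mul] at h1
  | succ n ih =>
    intro s hs hs0 x hx
    have hdeg : s.degree ≠ 0 := by
      intro h
      have := Polynomial.natDegree_eq_zero_iff_degree_le_zero.2 h.le
      omega
    obtain ⟨c, hc⟩ := IsAlgClosed.exists_root s hdeg
    obtain ⟨s', rfl⟩ := Polynomial.dvd_iff_isRoot.2 hc
    have hs' : s' ≠ 0 := right_ne_zero_of_mul hs0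
    have hn : s'.natDegree = n := by
      rw [Polynomial.natDegree_mul (Polynomial.X_sub_C_ne_zero c) hs',
        Polynomial.natDegree_X_sub_C] at hs
      omega
    refine ih s' hn hs' x ?_
    rw [map_mul, map_sub, Polynomial.aeval_X, Polynomial.aeval_C, mul_assoc] at hx
    exact regular c hx

theorem flatF : (Polynomial.aeval tF : Polynomial ℂ →ₐ[ℂ] RF).toRingHom.Flat := by
  rw [RingHom.Flat]
  letI : Algebra (Polynomial ℂ) RF := (Polynomial.aeval tF : Polynomial ℂ →ₐ[ℂ] RF).toRingHom.toAlgebra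
  have h1 : Module.IsTorsionFree (Polynomial ℂ) RF := by
    refine Module.IsTorsionFree.of_smul_eq_zero fun s x h => ?_
    by_cases hs : s = 0
    · exact Or.inl hs
    · exact Or.inr (torsion_free _ s rfl hs x h)
  infer_instance

theorem fgF : Algebra.FiniteType ℂ RF := by
  have h1 : Algebra.FiniteType ℂ AmT := (Subalgebra.fg_iff_finiteType _).1 Am_fg
  have h2 : Algebra.FiniteType ℂ CT := inferInstance
  exact Algebra.FiniteType.of_surjective mkF mkF_surj

/-- The homomorphisms from `A` and `A [T]` to the function field. -/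
noncomputable def αA (g : Fin 3 → K3) : AmT →ₐ[ℂ] K3 := (MvPolynomial.aeval g).comp valT

noncomputable def βA (g : Fin 3 → K3) (T : K3) : BT →ₐ[ℂ] K3 := Polynomial.aevalTower (αA g) T

theorem αA_ga (g : Fin 3 → K3) {i j : ℕ} (hi : i ≤ 4) (hj : j ≤ 1) :
    αA g (gT4 i j hi hj) = g 2 * (g 0 ^ i * g 1 ^ j) := by
  change MvPolynomial.aeval g (ga i j) = _
  rw [ga]
  simp

theorem αA_h (g : Fin 3 → K3) : αA g hT = g 2 * (g 0 ^ 4 - g 1) := by
  change MvPolynomial.aeval g hq = _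
  rw [hq]
  simp

theorem βA_eqc (g : Fin 3 → K3) (T : K3) (c : ℂ)
    (hg : g 2 * (g 0 ^ 4 - g 1) = algebraMap ℂ K3 c * T ^ 2) : βA g T (eqc c) = 0 := by
  rw [eqc, map_sub, map_mul, map_pow, AlgHom.commutes]
  simp only [βA, Polynomial.aevalTower_C, Polynomial.aevalTower_X]
  rw [αA_h, hg, sub_self]

/-- The map to the function field of the fibre. -/
noncomputable def θF (g : Fin 3 → K3) (T : K3) (c : ℂ)
    (hg : g 2 * (g 0 ^ 4 - g 1) = algebraMap ℂ K3 c * T ^ 2) : RF →ₐ[ℂ] K3 :=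
  Ideal.Quotient.liftₐ (Ideal.span {eqD}) ((βA g T).comp (evl c)) (by
    intro a ha
    rw [Ideal.mem_span_singleton] at ha
    obtain ⟨b, rfl⟩ := ha
    rw [AlgHom.comp_apply, map_mul, map_mul, evl_eqD, βA_eqc g T c hg, zero_mul])

theorem θF_mk (g : Fin 3 → K3) (T : K3) (c : ℂ)
    (hg : g 2 * (g 0 ^ 4 - g 1) = algebraMap ℂ K3 c * T ^ 2) (f : CT) :
    θF g T c hg (mkF f) = βA g T (evl c f) := rfl

theorem θF_t (g : Fin 3 → K3) (T : K3) (c : ℂ)
    (hg : g 2 * (g 0 ^ 4 - g 1) = algebraMap ℂ K3 c * T ^ 2) :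
    θF g T c hg (tF - algebraMap ℂ RF c) = 0 := by
  rw [map_sub, tF, θF_mk, evl_eval, Polynomial.eval_X, AlgHom.commutes, AlgHom.commutes, sub_self]

/-- The kernel. -/
theorem θF_ker (g : Fin 3 → K3) (T : K3) (c : ℂ)
    (hg : g 2 * (g 0 ^ 4 - g 1) = algebraMap ℂ K3 c * T ^ 2)
    (hk : ∀ b : BT, βA g T b = 0 → eqc c ∣ b) {x : RF} (hx : θF g T c hg x = 0) :
    x ∈ Ideal.span {tF - algebraMap ℂ RF c} := by
  obtain ⟨f, rfl⟩ := mkF_surj x
  rw [θF_mk] at hx
  obtain ⟨b, hb⟩ := hk _ hx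
  have h1 : evl c (f - eqD * Polynomial.C b) = 0 := by
    rw [map_sub, map_mul, evl_eqD, hb]
    have h2 : evl c (Polynomial.C b) = b := by
      rw [evl_eval, Polynomial.eval_C]
    rw [h2, sub_self]
  obtain ⟨f', hf'⟩ := X_sub_dvd h1
  have h2 : mkF f = mkF (f - eqD * Polynomial.C b) := by
    rw [← sub_eq_zero, ← map_sub, sub_sub_cancel, mkF_zero]
    exact dvd_mul_right _ _
  rw [h2, hf', mk_X_sub, Ideal.mem_span_singleton]
  exact dvd_mul_right _ _

/-- The values of the homomorphisms. -/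
theorem αA_mem {S : Subalgebra ℂ K3} {g : Fin 3 → K3}
    (h : ∀ i j, i ≤ 4 → j ≤ 1 → g 2 * (g 0 ^ i * g 1 ^ j) ∈ S) (a : AmT) : αA g a ∈ S := by
  have h1 : Am ≤ S.comap (MvPolynomial.aeval g) := by
    rw [Am_eq, Algebra.adjoin_le_iff]
    rintro _ ⟨p, rfl⟩
    change MvPolynomial.aeval g (ga p.1 p.2) ∈ S
    have h2 : MvPolynomial.aeval g (ga p.1 p.2) = g 2 * (g 0 ^ (p.1 : ℕ) * g 1 ^ (p.2 : ℕ)) := by
      rw [ga]
      simp
    rw [h2]
    exact h _ _ (by omega) (by omega)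
  exact h1 (show (a : Am).1 ∈ Am from (a : Am).2)

theorem βA_mem {S : Subalgebra ℂ K3} {g : Fin 3 → K3} {T : K3} (hT : T ∈ S)
    (h : ∀ i j, i ≤ 4 → j ≤ 1 → g 2 * (g 0 ^ i * g 1 ^ j) ∈ S) (b : BT) : βA g T b ∈ S := by
  induction b using Polynomial.induction_on' with
  | add p q hp hq => rw [map_add]; exact add_mem hp hq
  | monomial n a =>
    rw [← Polynomial.C_mul_X_pow_eq_monomial, map_mul, map_pow]
    simp only [βA, Polynomial.aevalTower_C, Polynomial.aevalTower_X]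
    exact mul_mem (αA_mem h a) (pow_mem hT _)

theorem θF_mem {S : Subalgebra ℂ K3} {g : Fin 3 → K3} {T : K3} {c : ℂ}
    (hg : g 2 * (g 0 ^ 4 - g 1) = algebraMap ℂ K3 c * T ^ 2) (hT : T ∈ S)
    (h : ∀ i j, i ≤ 4 → j ≤ 1 → g 2 * (g 0 ^ i * g 1 ^ j) ∈ S) (x : RF) : θF g T c hg x ∈ S := by
  obtain ⟨f, rfl⟩ := mkF_surj x
  rw [θF_mk]
  exact βA_mem hT h _

theorem θF_T {g : Fin 3 → K3} {T : K3} {c : ℂ}
    (hg : g 2 * (g 0 ^ 4 - g 1) = algebraMap ℂ K3 c * T ^ 2) :
    θF g T c hg (mkF (Polynomial.C Polynomial.X)) = T := by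
  rw [θF_mk, evl_eval, Polynomial.eval_C]
  simp only [βA, Polynomial.aevalTower_X]

theorem θF_A {g : Fin 3 → K3} {T : K3} {c : ℂ}
    (hg : g 2 * (g 0 ^ 4 - g 1) = algebraMap ℂ K3 c * T ^ 2) (a : AmT) :
    θF g T c hg (mkF (Polynomial.C (Polynomial.C a))) = αA g a := by
  rw [θF_mk, evl_eval, Polynomial.eval_C]
  simp only [βA, Polynomial.aevalTower_C]

end Pool.Agent.H436R3.KT
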