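import Mathlib
import Pool.Agent.H436R3.KT.Fam

/-!
# The fibres of the family
-/

set_option autoImplicit false

namespace Pool.Agent.H436R3.KT

open Pool.Agent.H436R3.Fol Pool.Agent.H436R3.Can

/-- The values of `x`, `y`, `z` on the general fibre. -/
noncomputable def g1 (c : ℂ) : Fin 3 → K3 := ![vv 0, yv, algebraMap ℂ K3 c * zv]

theorem y_rel : vv 0 ^ 4 - yv = vv 1 := by
  rw [yv]
  ring

theorem g1_rel (c : ℂ) : g1 c 2 * (g1 c 0 ^ 4 - g1 c 1) = algebraMap ℂ K3 c * vv 2 ^ 2 := by
  change algebraMap ℂ K3 c * zv * (vv 0 ^ 4 - yv) = _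
  rw [y_rel, ← q_zv]
  ring

/-- The values of `x`, `y`, `z` on the special fibre. -/
noncomputable def g0 : Fin 3 → K3 := ![vv 0, vv 0 ^ 4, vv 2]

theorem g0_rel : g0 2 * (g0 0 ^ 4 - g0 1) = algebraMap ℂ K3 0 * vv 1 ^ 2 := by
  change vv 2 * (vv 0 ^ 4 - vv 0 ^ 4) = _
  rw [map_zero]
  ring

theorem g1_ind {c : ℂ} (hc : c ≠ 0) : AlgebraicIndependent ℂ (g1 c) := by
  have hc' : algebraMap ℂ K3 c ≠ 0 := (map_ne_zero _).2 hc
  apply Pool.Agent.H135R2.VS.algInd_of_der
  intro v
  set b : K3 := 4 * vv 0 ^ 3 * v 0 - v 1 with hb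
  refine ⟨(v 0 / vv 0) • th 0 + (b / vv 1) • th 1 +
    ((v 2 / (algebraMap ℂ K3 c * zv) + b / vv 1) / 2) • th 2, fun j => ?_⟩
  have h0 := vv_ne 0
  have h1 := vv_ne 1
  have h2 := vv_ne 2
  have hz := zv_ne
  have e : ∀ D : Derivation ℂ K3 K3, D zv = zv * (2 * (D (vv 2) / vv 2) - D (vv 1) / vv 1) := by
    intro D
    have h3 := logDer_mono D ![0, -1, 2]
    rw [div_eq_iff (mono_ne _)] at h3
    change D zv = _ * zv at h3
    rw [h3]
    simp
    ring
  fin_cases j
  · change _ = v 0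
    change ((v 0 / vv 0) • th 0 + (b / vv 1) • th 1 +
      ((v 2 / (algebraMap ℂ K3 c * zv) + b / vv 1) / 2) • th 2) (vv 0) = v 0
    simp [th_vv]
    field_simp
  · change ((v 0 / vv 0) • th 0 + (b / vv 1) • th 1 +
      ((v 2 / (algebraMap ℂ K3 c * zv) + b / vv 1) / 2) • th 2) yv = v 1
    rw [yv_D]
    simp [th_vv]
    field_simp
    rw [hb]
    ring
  · change ((v 0 / vv 0) • th 0 + (b / vv 1) • th 1 +
      ((v 2 / (algebraMap ℂ K3 c * zv) + b / vv 1) / 2) • th 2) (algebraMap ℂ K3 c * zv) = v 2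
    rw [Derivation.leibniz, Derivation.map_algebraMap, smul_zero, add_zero, e, smul_eq_mul]
    simp [th_vv]
    field_simp
    ring

/-- The values of the involution. -/
noncomputable def gn : Fin 3 → K3 := ![vv 0, vv 1, -vv 2]

theorem gn_ind : AlgebraicIndependent ℂ gn := by
  refine algInd_of_log ?_ th ?_
  · intro i
    fin_cases i
    · exact vv_ne 0
    · exact vv_ne 1
    · exact neg_ne_zero.2 (vv_ne 2)
  · intro i j
    fin_cases j
    · exact th_vv i 0
    · exact th_vv i 1
    · change th i (-vv 2) = if i = 2 then -vv 2 else 0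
      rw [map_neg, th_vv]
      split_ifs
      · rfl
      · exact neg_zero

/-- The involution `T ↦ -T`. -/
noncomputable def nu : K3 →ₐ[ℂ] K3 := hom gn gn_ind

theorem nu_vv (i : Fin 3) : nu (vv i) = gn i := hom_vv gn gn_ind i

theorem nu_zv : nu zv = zv := by
  apply mul_left_cancel₀ (vv_ne 1)
  have h := congrArg nu q_zv
  rw [map_mul, map_pow, nu_vv, nu_vv] at h
  change vv 1 * nu zv = (-vv 2) ^ 2 at h
  rw [h, q_zv]
  ring

theorem nu_yv : nu yv = yv := by
  rw [yv, map_sub, map_pow, nu_vv, nu_vv]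
  rfl

theorem nu_α (c : ℂ) (a : AmT) : nu (αA (g1 c) a) = αA (g1 c) a := by
  have h : nu.comp (MvPolynomial.aeval (g1 c)) = MvPolynomial.aeval (g1 c) := by
    apply MvPolynomial.algHom_ext
    intro i
    rw [AlgHom.comp_apply, MvPolynomial.aeval_X]
    fin_cases i
    · exact nu_vv 0
    · exact nu_yv
    · change nu (algebraMap ℂ K3 c * zv) = algebraMap ℂ K3 c * zv
      rw [map_mul, AlgHom.commutes, nu_zv]
  exact DFunLike.congr_fun h (valT a)

theorem αA_inj {c : ℂ} (hc : c ≠ 0) {a : AmT} (h : αA (g1 c) a = 0) : a = 0 := by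
  apply valT_inj
  rw [map_zero]
  apply aeval_inj (g1_ind hc)
  rw [map_zero]
  exact h

theorem ker1 {c : ℂ} (hc : c ≠ 0) (b : BT) (hb : βA (g1 c) (vv 2) b = 0) : eqc c ∣ b := by
  have hcc : algebraMap ℂ AmT c * algebraMap ℂ AmT c⁻¹ = 1 := by
    rw [← map_mul, mul_inv_cancel₀ hc, map_one]
  set M : BT := Polynomial.X ^ 2 - Polynomial.C (algebraMap ℂ AmT c⁻¹ * hT) with hM
  have hmon : M.Monic := Polynomial.monic_X_pow_sub_C _ two_ne_zero
  have hMc : M = -(Polynomial.C (algebraMap ℂ AmT c⁻¹)) * eqc c := by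
    have h1 : algebraMap ℂ BT c = Polynomial.C (algebraMap ℂ AmT c) := rfl
    have h2 : (Polynomial.C (algebraMap ℂ AmT c) * Polynomial.C (algebraMap ℂ AmT c⁻¹) : BT) = 1 := by
      rw [← Polynomial.C_mul, hcc, Polynomial.C_1]
    rw [hM, eqc, h1, Polynomial.C_mul]
    linear_combination (-Polynomial.X ^ 2) * h2
  have hβM : βA (g1 c) (vv 2) M = 0 := by
    rw [hMc, map_mul, βA_eqc _ _ _ (g1_rel c), mul_zero]
  have hdvd : eqc c ∣ M := by
    rw [hMc]
    exact dvd_mul_left _ _
  refine hdvd.trans ?_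
  have hdeg : (b %ₘ M).natDegree ≤ 1 := by
    have h1 : M.natDegree = 2 := Polynomial.natDegree_X_pow_sub_C
    have h2 : (b %ₘ M).natDegree < M.natDegree :=
      Polynomial.natDegree_modByMonic_lt b hmon (by
        intro h
        rw [h, Polynomial.natDegree_one] at h1
        omega)
    omega
  obtain ⟨a, d, had⟩ := Polynomial.exists_eq_X_add_C_of_natDegree_le_one hdeg
  have h1 := Polynomial.modByMonic_add_div b M
  have h2 := hb
  rw [← h1, map_add, map_mul, hβM, zero_mul, add_zero, had, map_add, map_mul] at h2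
  simp only [βA, Polynomial.aevalTower_C, Polynomial.aevalTower_X] at h2
  have h3 := congrArg nu h2
  rw [map_add, map_mul, nu_α, nu_α, nu_vv, map_zero] at h3
  change αA (g1 c) a * (-vv 2) + αA (g1 c) d = 0 at h3
  have h4 : αA (g1 c) d = 0 := by
    linear_combination (h2 + h3) / 2
  have h5 : αA (g1 c) a = 0 := by
    rw [h4, add_zero] at h2
    exact (mul_eq_zero.1 h2).resolve_right (vv_ne 2)
  rw [αA_inj hc h4, αA_inj hc h5, Polynomial.C_0, zero_mul, add_zero] at had
  rw [had, zero_add] at h1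
  rw [← h1]
  exact dvd_mul_right _ _

theorem α0_eq (a : AmT) : αA g0 a = io (εs (valT a)) := by
  have h : (MvPolynomial.aeval g0 : Q3 →ₐ[ℂ] K3) = io.comp εs := by
    apply MvPolynomial.algHom_ext
    intro i
    rw [AlgHom.comp_apply, MvPolynomial.aeval_X, εs, MvPolynomial.aeval_X]
    fin_cases i
    · rfl
    · change vv 0 ^ 4 = io (MvPolynomial.X 0 ^ 4)
      rw [map_pow]
      rfl
    · rfl
  exact DFunLike.congr_fun h (valT a)

theorem th1_α0 (a : AmT) : th 1 (αA g0 a) = 0 := by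
  change th 1 (MvPolynomial.aeval g0 (valT a)) = 0
  generalize valT a = q
  induction q using MvPolynomial.induction_on with
  | C a => rw [← MvPolynomial.algebraMap_eq, AlgHom.commutes, Derivation.map_algebraMap]
  | add p q hp hq => rw [map_add, map_add, hp, hq, add_zero]
  | mul_X p j hp =>
    rw [map_mul, Derivation.leibniz, hp, smul_zero, add_zero, MvPolynomial.aeval_X]
    have h : th 1 (g0 j) = 0 := by
      fin_cases j
      · change th 1 (vv 0) = 0
        rw [th_vv]
        rfl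
      · change th 1 (vv 0 ^ 4) = 0
        rw [Derivation.leibniz_pow, th_vv, if_neg (by decide), smul_zero, nsmul_zero]
      · change th 1 (vv 2) = 0
        rw [th_vv]
        rfl
    rw [h, smul_zero]

theorem ker0 (b : BT) (hb : βA g0 (vv 1) b = 0) : eqc 0 ∣ b := by
  classical
  have he : eqc 0 = Polynomial.C hT := by
    rw [eqc, map_zero, zero_mul, sub_zero]
  rw [he, Polynomial.C_dvd_iff_dvd_coeff]
  intro i
  by_cases hi : i ≤ b.natDegree
  · have h1 : βA g0 (vv 1) b = ∑ k ∈ Finset.range (b.natDegree + 1),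
        αA g0 (b.coeff k) * vv 1 ^ k := by
      change Polynomial.eval₂ (αA g0 : AmT →+* K3) (vv 1) b = _
      rw [Polynomial.eval₂_eq_sum_range]
      rfl
    rw [h1] at hb
    have h2 := eig (th 1) ((Finset.range (b.natDegree + 1)).image fun k : ℕ => (k : ℤ))
      (fun n => αA g0 (b.coeff n.toNat) * vv 1 ^ n.toNat) (by
        intro n hn
        obtain ⟨k, -, rfl⟩ := Finset.mem_image.1 hn
        rw [Int.toNat_natCast, Derivation.leibniz, th1_α0, smul_zero, add_zero,
          Derivation.leibniz_pow, th_vv, if_pos rfl, smul_eq_mul, smul_eq_mul, nsmul_eq_mul]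
        rcases Nat.eq_zero_or_pos k with rfl | hk
        · simp
        · have h3 : vv 1 ^ (k - 1) * vv 1 = vv 1 ^ k := by
            rw [← pow_succ, Nat.sub_add_cancel hk]
          rw [h3]
          push_cast
          ring) (by
        rw [Finset.sum_image (fun a _ b _ h => by exact_mod_cast h)]
        simpa using hb) (i : ℤ) (Finset.mem_image.2 ⟨i, Finset.mem_range.2 (by omega), rfl⟩)
    rw [Int.toNat_natCast] at h2
    have h3 := (mul_eq_zero.1 h2).resolve_right (pow_ne_zero _ (vv_ne 1))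
    rw [α0_eq] at h3
    have h4 : εs (valT (b.coeff i)) = 0 := io_inj (by rw [h3, map_zero])
    exact hA_dvd (a := (b.coeff i : Am)) h4
  · rw [Polynomial.coeff_eq_zero_of_natDegree_lt (not_le.1 hi)]
    exact dvd_zero _

end Pool.Agent.H436R3.KT
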