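import Mathlib
import Pool.Agent.H436R3.KT.NotKlt

/-!
# The general fibre is normal
-/

set_option autoImplicit false

namespace Pool.Agent.H436R3.KT

open MvPolynomial Pool.Agent.H436R3.Fol Pool.Agent.H436R3.Can

/-- The valuation ring as a valuation subring. -/
noncomputable def vsub (v : DVal K3) : ValuationSubring K3 where
  toSubring := v.O
  mem_or_inv_mem' f := by
    change v.Reg f ∨ v.Reg f⁻¹
    by_cases hf : f = 0
    · exact Or.inl (Or.inl hf)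
    by_cases h : 0 ≤ v.ord f
    · exact Or.inl (Or.inr h)
    · right
      right
      rw [v.ord_inv hf]
      omega

theorem reg_of_integral (v : DVal K3) {S : Subalgebra ℂ K3} (hS : ∀ f ∈ S, v.Reg f) {f : K3}
    (hf : IsIntegral S f) : v.Reg f := by
  obtain ⟨p, hp, h0⟩ := hf
  let ψ : S →+* vsub v :=
    { toFun := fun s => ⟨(s : K3), hS _ s.2⟩
      map_one' := rfl
      map_mul' := fun _ _ => rfl
      map_zero' := rfl
      map_add' := fun _ _ => rfl }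
  have h1 : IsIntegral (vsub v) f := by
    refine ⟨p.map ψ, hp.map _, ?_⟩
    rw [Polynomial.eval₂_map]
    exact h0
  obtain ⟨y, hy⟩ := IsIntegrallyClosed.algebraMap_eq_of_integral h1
  rw [← hy]
  exact y.2

/-- The chart `ℂ [x, 1 / q, T]`. -/
def pJ : MP := ⟨![![1,0,0], ![0,-1,0], ![0,0,1]], ![![1,0,0], ![0,-1,0], ![0,0,1]],
  by decide +kernel, by decide +kernel⟩

/-- The chart `ℂ [x, 1 / y, T]`. -/
noncomputable def τJ : K3 ≃ₐ[ℂ] K3 := pJ.τ.trans sw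

/-- The order at `y = ∞`. -/
noncomputable def vJ : DVal K3 := pl τJ.symm (vX 1)

theorem vJ_on : IsLocalRing' (RR τJ) vJ := push_divisor _ (valP_divisor _)

theorem vJ_ord (f : K3) : vJ.ord f = (vM pJ 1).ord (sw.symm f) := rfl

theorem vJ'_mono (e : Fin 3 → ℤ) : (vM pJ 1).ord (mono e) = -e 1 := by
  rw [vM_mono]
  simp [mulv, pJ]

theorem vJ_0 : vJ.ord (vv 0) = 0 := by
  rw [vJ_ord, sws_vv]
  change (vM pJ 1).ord (vv 0) = 0
  rw [← mono_ev, vJ'_mono]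
  rfl

theorem vJ_2 : vJ.ord (vv 2) = 0 := by
  rw [vJ_ord, sws_vv]
  change (vM pJ 1).ord (vv 2) = 0
  rw [← mono_ev, vJ'_mono]
  rfl

theorem vJ_1 : vJ.ord (vv 1) = -1 := by
  rw [vJ_ord, sws_vv]
  change (vM pJ 1).ord (vv 0 ^ 4 - vv 1) = -1
  have h0 : (vM pJ 1).ord (vv 0) = 0 := by
    rw [← mono_ev, vJ'_mono]
    rfl
  have h1 : (vM pJ 1).ord (vv 1) = -1 := by
    rw [← mono_ev, vJ'_mono]
    rfl
  rw [sub_eq_add_neg, add_comm,
    (ord_add_of_lt _ (neg_ne_zero.2 (vv_ne 1)) (pow_ne_zero _ (vv_ne 0)) ?_).2,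
    DVal.ord_neg _ (vv_ne 1), h1]
  rw [DVal.ord_pow _ (vv_ne 0), h0, DVal.ord_neg _ (vv_ne 1), h1]
  norm_num

theorem vJ_y : vJ.ord yv = -1 := by
  rw [yv, vJ_ord, map_sub, map_pow, sws_vv, sws_vv]
  change (vM pJ 1).ord (vv 0 ^ 4 - (vv 0 ^ 4 - vv 1)) = -1
  rw [sub_sub_cancel, ← mono_ev, vJ'_mono]
  rfl

theorem vJ_zv : vJ.ord zv = 1 := by
  rw [ord_zv, vJ_1, vJ_2]
  rfl

theorem vJ_reg : ∀ f ∈ R1, vJ.Reg f := by
  refine R1_reg vJ_2.ge fun i j _ hj => ?_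
  rw [vJ_zv, vJ_0, vJ_y]
  have : (j : ℤ) ≤ 1 := by exact_mod_cast hj
  linarith

theorem τJ_0 : τJ (vv 0) = vv 0 := by
  change sw (pJ.τ (vv 0)) = _
  rw [MP.τ_vv]
  change sw (mono ![1, 0, 0]) = _
  rw [mono]
  simp [sw_vv, gs]

theorem τJ_1 : τJ (vv 1) = yv⁻¹ := by
  change sw (pJ.τ (vv 1)) = _
  rw [MP.τ_vv]
  change sw (mono ![0, -1, 0]) = _
  rw [mono]
  simp [sw_vv, gs, yv]

theorem τJ_2 : τJ (vv 2) = vv 2 := by
  change sw (pJ.τ (vv 2)) = _
  rw [MP.τ_vv]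
  change sw (mono ![0, 0, 1]) = _
  rw [mono]
  simp [sw_vv, gs]

theorem th2_yv : th 2 yv = 0 := by
  rw [yv_D, th_vv, th_vv, if_neg (by decide), if_neg (by decide)]
  ring

theorem th2_J : Preserves vJ (th 2) := by
  refine preserves_of vJ vJ_on fun f hf => vJ_on.1 _ (der_mem_RR τJ ?_ hf)
  intro i
  have h2 := τ_mem τJ (X i)
  change τJ (vv i) ∈ RR τJ at h2
  fin_cases i
  · change th 2 (τJ (vv 0)) ∈ RR τJ
    rw [τJ_0, th_vv, if_neg (by decide)]
    exact zero_mem _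
  · change th 2 (τJ (vv 1)) ∈ RR τJ
    rw [τJ_1, Derivation.leibniz_inv, th2_yv, smul_zero]
    exact zero_mem _
  · change th 2 (τJ (vv 2)) ∈ RR τJ
    have h4 : th 2 (τJ (vv 2)) = τJ (vv 2) := by
      rw [τJ_2, th_vv, if_pos rfl]
    rw [h4]
    exact h2

theorem ge_J {N : ℤ} {f : K3} (hf : Ge vJ N f) : Ge vJ N (th 2 f) := by
  refine ge_der th2_J (inv_ne_zero yv_ne0) ?_ ?_ hf
  · rw [vJ.ord_inv yv_ne0, vJ_y]
    rfl
  · rw [Derivation.leibniz_inv, th2_yv, smul_zero]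

theorem zmono_mem (k a b c : ℕ) (h : a ≤ 4 * k) (h' : b ≤ k) :
    zv ^ k * (vv 0 ^ a * yv ^ b * vv 2 ^ c) ∈ R1 := by
  induction k generalizing a b with
  | zero =>
    have ha : a = 0 := by omega
    have hb : b = 0 := by omega
    rw [ha, hb, pow_zero, pow_zero, pow_zero, one_mul, one_mul, one_mul]
    exact pow_mem T_mem1 _
  | succ k ih =>
    obtain ⟨i, a', hi, ha', rfl⟩ : ∃ i a', i ≤ 4 ∧ a' ≤ 4 * k ∧ a = i + a' := by
      by_cases h1 : a ≤ 4
      · exact ⟨a, 0, h1, Nat.zero_le _, rfl⟩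
      · exact ⟨4, a - 4, le_rfl, by omega, by omega⟩
    obtain ⟨j, b', hj, hb', rfl⟩ : ∃ j b', j ≤ 1 ∧ b' ≤ k ∧ b = j + b' := by
      by_cases h1 : b ≤ 1
      · exact ⟨b, 0, h1, Nat.zero_le _, rfl⟩
      · exact ⟨1, b - 1, le_rfl, by omega, by omega⟩
    have h1 : zv ^ (k + 1) * (vv 0 ^ (i + a') * yv ^ (j + b') * vv 2 ^ c) =
        gz i j * (zv ^ k * (vv 0 ^ a' * yv ^ b' * vv 2 ^ c)) := by
      rw [gz]
      ring
    rw [h1]
    exact mul_mem (gz_mem hi hj) (ih _ _ ha' hb')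

theorem io_eq_sw (b : Q3) : io b = sw (io (σs b)) := by
  rw [← sws_io, AlgEquiv.apply_symm_apply]

/-- The functions `z ^ k b` with poles of bounded order. -/
theorem zk_mem {k : ℕ} {b : Q3} (hb : b ≠ 0) (hI : -(4 * k : ℤ) ≤ vI.ord (io b))
    (hJ : -(k : ℤ) ≤ vJ.ord (io b)) : zv ^ k * io b ∈ R1 := by
  have h1 : io b = ∑ m ∈ (σs b).support,
      algebraMap ℂ K3 ((σs b).coeff m) * (vv 0 ^ m 0 * yv ^ m 1 * vv 2 ^ m 2) := by
    rw [io_eq_sw]
    conv_lhs => rw [(σs b).as_sum]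
    rw [map_sum, map_sum]
    refine Finset.sum_congr rfl fun m _ => ?_
    rw [io_monomial, map_mul, AlgEquiv.commutes]
    congr 1
    change sw (vv 0 ^ m 0 * vv 1 ^ m 1 * vv 2 ^ m 2) = _
    rw [map_mul, map_mul, map_pow, map_pow, map_pow, sw_vv, sw_vv, sw_vv]
    rfl
  rw [h1, Finset.mul_sum]
  refine sum_mem fun m hm => ?_
  rw [mul_left_comm]
  refine mul_mem (Subalgebra.algebraMap_mem _ _) (zmono_mem _ _ _ _ ?_ ?_)
  · rw [vI_ord, sws_io] at hI
    have h2 := vM_le pι 0 (mem_support_iff.1 hm)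
    have h3 : mulv (fun l => (m l : ℤ)) pι.N 0 = -(m 0 : ℤ) := by
      simp [mulv, pι]
    rw [h3] at h2
    omega
  · rw [vJ_ord, sws_io] at hJ
    have h2 := vM_le pJ 1 (mem_support_iff.1 hm)
    have h3 : mulv (fun l => (m l : ℤ)) pJ.N 1 = -(m 1 : ℤ) := by
      simp [mulv, pJ]
    rw [h3] at h2
    omega

theorem monomial_dvd_of {s : Fin 3 →₀ ℕ} {q : Q3} (h : ∀ m ∈ q.support, s ≤ m) :
    monomial s (1 : ℂ) ∣ q := by
  rw [q.as_sum]
  refine Finset.dvd_sum fun m hm => ?_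
  refine ⟨monomial (m - s) (q.coeff m), ?_⟩
  rw [monomial_mul, one_mul, add_tsub_cancel_of_le (h m hm)]

theorem mulv_pC (e : Fin 3 → ℤ) : mulv e pC.N 2 = 2 * e 1 + e 2 := by
  have h : mulv e pC.N 2 = e 0 * 0 + e 1 * 2 + e 2 * 1 := rfl
  rw [h]
  ring

theorem th2_q : th 2 (vv 1) = 0 := by
  rw [th_vv, if_neg (by decide)]

/-- The characterisation of the coordinate ring by valuations. -/
theorem mem_R1 {f : K3} {N : ℕ} (hN : vv 1 ^ N * f ∈ QK) (hC : vC.Reg f) (hI : vI.Reg f)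
    (hJ : vJ.Reg f) : f ∈ R1 := by
  classical
  obtain ⟨a, ha⟩ := mem_QK.1 hN
  have hq : vv 1 ^ N ≠ 0 := pow_ne_zero _ (vv_ne 1)
  by_cases hf0 : f = 0
  · rw [hf0]
    exact zero_mem _
  have ha0 : io a ≠ 0 := by
    rw [ha]
    exact mul_ne_zero hq hf0
  have hfa : f = (vv 1 ^ N)⁻¹ * io a := by
    rw [ha, ← mul_assoc, inv_mul_cancel₀ hq, one_mul]
  set S : Finset ℤ := a.support.image (W cw) with hS
  have hA : ∀ m ∈ a.support, W cw m ∈ S := fun m hm => Finset.mem_image_of_mem _ hm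
  set u : ℤ → K3 := fun n => (vv 1 ^ N)⁻¹ * io (comp cw n a) with hu
  have hsum : ∑ n ∈ S, u n = f := by
    rw [hu, ← Finset.mul_sum, ← map_sum, sum_comp _ _ hA, ← hfa]
  have heig : ∀ n ∈ S, th 2 (u n) = n * u n := by
    intro n _
    have h1 : th 2 ((vv 1 ^ N)⁻¹) = 0 := by
      rw [Derivation.leibniz_inv, Derivation.leibniz_pow, th2_q, smul_zero, nsmul_zero, smul_zero]
    rw [hu]
    simp only
    rw [Derivation.leibniz, h1, smul_zero, add_zero, th2_comp, smul_eq_mul]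
    ring
  have hgI := ge_eig (v := vI) (N := 0) (th 2) (fun f hf => ge_I hf) S u heig
    (by rw [hsum]; exact hI)
  have hgJ := ge_eig (v := vJ) (N := 0) (th 2) (fun f hf => ge_J hf) S u heig
    (by rw [hsum]; exact hJ)
  rw [← hsum]
  refine sum_mem fun n hn => ?_
  obtain ⟨m', -, hm'⟩ := Finset.mem_image.1 hn
  rw [W_cw] at hm'
  obtain ⟨l, rfl⟩ : ∃ l : ℕ, (l : ℤ) = n := ⟨m' 2, hm'⟩
  by_cases hc0 : comp cw (l : ℤ) a = 0
  · rw [hu]
    simp only
    rw [hc0, map_zero, mul_zero]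
    exact zero_mem _
  set k := l / 2 with hk
  -- divisibility
  have hd : monomial (Finsupp.single 1 N + Finsupp.single 2 l) (1 : ℂ) ∣
      X 1 ^ k * comp cw (l : ℤ) a := by
    apply monomial_dvd_of
    intro m hm
    rw [mem_support_iff, X_pow_eq_monomial, coeff_monomial_mul', ite_ne_right_iff, one_mul,
      coeff_comp, ite_ne_right_iff] at hm
    obtain ⟨h1, h2, h3⟩ := hm
    rw [W_cw] at h2
    have h4 := vM_le pC 2 h3
    have h5 : mulv (fun i => ((m - Finsupp.single (1 : Fin 3) k) i : ℤ)) pC.N 2 =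
        2 * ((m 1 : ℤ) - k) + l := by
      have h6 : ((m - Finsupp.single (1 : Fin 3) k) 1 : ℕ) = m 1 - k := by
        rw [Finsupp.tsub_apply, Finsupp.single_eq_same]
      have h7 : k ≤ m 1 := by
        have := h1 1
        rwa [Finsupp.single_eq_same] at this
      rw [mulv_pC, h2, h6, Nat.cast_sub h7]
    rw [h5] at h4
    have h8 : (2 * N : ℤ) ≤ vC.ord (io a) := by
      have h9 := vC.ord_nonneg hf0 hC
      have h10 : vC.ord (vv 1) = 2 := vC_vv 1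
      rw [ha, vC.map_mul _ _ hq hf0, vC.ord_pow (vv_ne 1), h10]
      linarith
    have h11 : (2 * N : ℤ) ≤ 2 * ((m 1 : ℤ) - k) + l := h8.trans h4
    have h12 : m 2 = l := by
      have h13 : ((m - Finsupp.single (1 : Fin 3) k) 2 : ℕ) = m 2 := by
        rw [Finsupp.tsub_apply, Finsupp.single_apply, if_neg (by decide), Nat.sub_zero]
      rw [h13] at h2
      exact_mod_cast h2
    intro i
    rw [Finsupp.add_apply, Finsupp.single_apply, Finsupp.single_apply]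
    fin_cases i
    · change (if (1 : Fin 3) = 0 then N else 0) + (if (2 : Fin 3) = 0 then l else 0) ≤ m 0
      rw [if_neg (by decide), if_neg (by decide)]
      omega
    · change (if (1 : Fin 3) = 1 then N else 0) + (if (2 : Fin 3) = 1 then l else 0) ≤ m 1
      rw [if_pos rfl, if_neg (by decide)]
      omega
    · change (if (1 : Fin 3) = 2 then N else 0) + (if (2 : Fin 3) = 2 then l else 0) ≤ m 2
      rw [if_neg (by decide), if_pos rfl]
      omega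
  obtain ⟨b, hb⟩ := hd
  have hb0 : b ≠ 0 := by
    rintro rfl
    rw [mul_zero] at hb
    exact mul_ne_zero (pow_ne_zero _ (X_ne_zero _)) hc0 hb
  have hul : u (l : ℤ) = vv 2 ^ (l - 2 * k) * (zv ^ k * io b) := by
    have h1 : vv 1 ^ k * io (comp cw (l : ℤ) a) = vv 1 ^ N * vv 2 ^ l * io b := by
      have h2 := congrArg io hb
      rw [map_mul, map_mul, map_pow, io_mono] at h2
      change vv 1 ^ k * io (comp cw (l : ℤ) a) = _ at h2
      rw [h2, map_one, one_mul, mono]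
      congr 1
      simp
    have hz : vv 1 ^ k * zv ^ k = vv 2 ^ (2 * k) := by
      rw [← mul_pow, q_zv, ← pow_mul]
    have hT : vv 2 ^ l = vv 2 ^ (l - 2 * k) * vv 2 ^ (2 * k) := by
      rw [← pow_add]
      congr 1
      omega
    apply mul_left_cancel₀ (pow_ne_zero k (vv_ne 1))
    apply mul_left_cancel₀ hq
    rw [hu]
    simp only
    have h3 : vv 1 ^ N * (vv 1 ^ k * ((vv 1 ^ N)⁻¹ * io (comp cw (l : ℤ) a))) =
        (vv 1 ^ N * (vv 1 ^ N)⁻¹) * (vv 1 ^ k * io (comp cw (l : ℤ) a)) := by ring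
    rw [h3, mul_inv_cancel₀ hq, one_mul, h1, hT, ← hz]
    ring
  have hul0 : u (l : ℤ) ≠ 0 := by
    rw [hul]
    exact mul_ne_zero (pow_ne_zero _ (vv_ne 2)) (mul_ne_zero (pow_ne_zero _ zv_ne) (io_ne hb0))
  have eI := (hgI _ hn).resolve_left hul0
  have eJ := (hgJ _ hn).resolve_left hul0
  have hz0 : zv ^ k * io b ≠ 0 := mul_ne_zero (pow_ne_zero _ zv_ne) (io_ne hb0)
  rw [hul, vI.map_mul _ _ (pow_ne_zero _ (vv_ne 2)) hz0,
    vI.map_mul _ _ (pow_ne_zero _ zv_ne) (io_ne hb0), vI.ord_pow (vv_ne 2), vI.ord_pow zv_ne,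
    vI_2, vI_zv] at eI
  rw [hul, vJ.map_mul _ _ (pow_ne_zero _ (vv_ne 2)) hz0,
    vJ.map_mul _ _ (pow_ne_zero _ zv_ne) (io_ne hb0), vJ.ord_pow (vv_ne 2), vJ.ord_pow zv_ne,
    vJ_2, vJ_zv] at eJ
  rw [hul]
  exact mul_mem (pow_mem T_mem1 _) (zk_mem hb0 (by linarith) (by linarith))

theorem R1_normal (f : K3) (hf : IsIntegral R1 f) : f ∈ R1 := by
  obtain ⟨N, hN⟩ := integral_of_pow (R := QK) (S := R1) (s := vv 1) (fun g hg => by
    obtain ⟨k, hk⟩ := R1_loc g hg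
    refine ⟨k, fun m hm => ?_⟩
    obtain ⟨e, rfl⟩ := Nat.exists_eq_add_of_le hm
    rw [pow_add, mul_comm (vv 1 ^ k), mul_assoc]
    exact mul_mem (pow_mem (vv_mem 1) _) hk) (vv_mem 1) hf
  have h1 : vv 1 ^ N * f ∈ QK := by
    rw [← RR_refl] at hN ⊢
    exact RR_normal _ _ hN
  exact mem_R1 h1 (reg_of_integral vC vC_reg hf) (reg_of_integral vI vI_reg hf)
    (reg_of_integral vJ vJ_reg hf)

end Pool.Agent.H436R3.KT
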