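import Mathlib
import Pool.Agent.H436R3.KT.Fib
import Pool.Agent.H436R3.KT.Norm
import Pool.Agent.H436R3.Can.DivD

/-!
# Assembly
-/

set_option autoImplicit false

namespace Pool.Agent.H436R3.KT

open Pool.Agent.H436R3.Fol Pool.Agent.H436R3.Can

/-- The value at the vertex. -/
noncomputable def s0 : AmT →ₐ[ℂ] ℂ := (MvPolynomial.aeval (0 : Fin 3 → ℂ)).comp valT

noncomputable def s1 : AmT →ₐ[ℂ] Polynomial ℂ := (Algebra.ofId ℂ (Polynomial ℂ)).comp s0

noncomputable def s2 : BT →ₐ[ℂ] Polynomial ℂ := Polynomial.aevalTower s1 0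

noncomputable def s3 : CT →ₐ[ℂ] Polynomial ℂ := Polynomial.aevalTower s2 Polynomial.X

theorem s0_h : s0 hT = 0 := by
  change MvPolynomial.aeval (0 : Fin 3 → ℂ) hq = 0
  rw [hq]
  simp

theorem s3_eqD : s3 eqD = 0 := by
  rw [eqD, map_sub, map_mul]
  simp only [s3, Polynomial.aevalTower_C, Polynomial.aevalTower_X]
  rw [map_pow]
  simp only [s2, Polynomial.aevalTower_C, Polynomial.aevalTower_X]
  rw [s1, AlgHom.comp_apply, s0_h, map_zero]
  ring

/-- The section. -/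
noncomputable def sF : RF →ₐ[ℂ] Polynomial ℂ :=
  Ideal.Quotient.liftₐ (Ideal.span {eqD}) s3 (by
    intro a ha
    rw [Ideal.mem_span_singleton] at ha
    obtain ⟨b, rfl⟩ := ha
    rw [map_mul, s3_eqD, zero_mul])

theorem sF_mk (f : CT) : sF (mkF f) = s3 f := rfl

theorem sF_t : sF tF = Polynomial.X := by
  rw [tF, sF_mk]
  simp only [s3, Polynomial.aevalTower_X]

/-- The projection to a fibre. -/
noncomputable def πF (S : Subalgebra ℂ K3) (g : Fin 3 → K3) (T : K3) (c : ℂ)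
    (hg : g 2 * (g 0 ^ 4 - g 1) = algebraMap ℂ K3 c * T ^ 2) (hT : T ∈ S)
    (h : ∀ i j, i ≤ 4 → j ≤ 1 → g 2 * (g 0 ^ i * g 1 ^ j) ∈ S) : RF →ₐ[ℂ] S :=
  (θF g T c hg).codRestrict S (θF_mem hg hT h)

section proj

variable {S : Subalgebra ℂ K3} {g : Fin 3 → K3} {T : K3} {c : ℂ}
  (hg : g 2 * (g 0 ^ 4 - g 1) = algebraMap ℂ K3 c * T ^ 2) (hT : T ∈ S)
  (h : ∀ i j, i ≤ 4 → j ≤ 1 → g 2 * (g 0 ^ i * g 1 ^ j) ∈ S)

theorem πF_coe (x : RF) : (πF S g T c hg hT h x : K3) = θF g T c hg x := rfl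

theorem πF_ker (hk : ∀ b : BT, βA g T b = 0 → eqc c ∣ b) :
    RingHom.ker (πF S g T c hg hT h) = Ideal.span {tF - algebraMap ℂ RF c} := by
  apply le_antisymm
  · intro x hx
    refine θF_ker g T c hg hk ?_
    rw [RingHom.mem_ker] at hx
    rw [← πF_coe hg hT h, hx]
    rfl
  · rw [Ideal.span_singleton_le_iff_mem, RingHom.mem_ker]
    apply Subtype.ext
    rw [πF_coe, θF_t]
    rfl

theorem πF_surj {G : Set K3} (hG : S = Algebra.adjoin ℂ G)
    (hr : ∀ y ∈ G, ∃ x, θF g T c hg x = y) : Function.Surjective (πF S g T c hg hT h) := by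
  intro y
  have h1 : S ≤ (θF g T c hg).range := by
    rw [hG, Algebra.adjoin_le_iff]
    intro y hy
    obtain ⟨x, hx⟩ := hr y hy
    exact ⟨x, hx⟩
  obtain ⟨x, hx⟩ := h1 y.2
  exact ⟨x, Subtype.ext hx⟩

end proj

theorem g1_mem (c : ℂ) (i j : ℕ) (hi : i ≤ 4) (hj : j ≤ 1) :
    g1 c 2 * (g1 c 0 ^ i * g1 c 1 ^ j) ∈ R1 := by
  change algebraMap ℂ K3 c * zv * (vv 0 ^ i * yv ^ j) ∈ R1
  rw [mul_assoc]
  exact mul_mem (Subalgebra.algebraMap_mem _ _) (gz_mem hi hj)

theorem g0_mem (i j : ℕ) (hi : i ≤ 4) (hj : j ≤ 1) : g0 2 * (g0 0 ^ i * g0 1 ^ j) ∈ R0 := by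
  change vv 2 * (vv 0 ^ i * (vv 0 ^ 4) ^ j) ∈ R0
  rw [← pow_mul, ← pow_add]
  exact gk_mem (by omega)

theorem surj1 {c : ℂ} (hc : c ≠ 0) :
    Function.Surjective (πF R1 (g1 c) (vv 2) c (g1_rel c) T_mem1 (g1_mem c)) := by
  refine πF_surj _ _ _ (G := G1) rfl ?_
  rintro _ (rfl | ⟨p, rfl⟩)
  · exact ⟨_, θF_T (g1_rel c)⟩
  · refine ⟨algebraMap ℂ RF c⁻¹ * mkF (Polynomial.C (Polynomial.C
      (gT4 p.1 p.2 (by omega) (by omega)))), ?_⟩
    rw [map_mul, θF_A, αA_ga, AlgHom.commutes]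
    change algebraMap ℂ K3 c⁻¹ * (algebraMap ℂ K3 c * zv * (vv 0 ^ (p.1 : ℕ) * yv ^ (p.2 : ℕ))) =
      zv * (vv 0 ^ (p.1 : ℕ) * yv ^ (p.2 : ℕ))
    have hcc : algebraMap ℂ K3 c⁻¹ * algebraMap ℂ K3 c = 1 := by
      rw [← map_mul, inv_mul_cancel₀ hc, map_one]
    linear_combination (zv * (vv 0 ^ (p.1 : ℕ) * yv ^ (p.2 : ℕ))) * hcc

theorem surj0 : Function.Surjective (πF R0 g0 (vv 1) 0 g0_rel T_mem0 g0_mem) := by
  refine πF_surj _ _ _ (G := G0) rfl ?_
  rintro _ (rfl | ⟨k, rfl⟩)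
  · exact ⟨_, θF_T g0_rel⟩
  · obtain ⟨i, j, hi, hj, hk⟩ : ∃ i j, i ≤ 4 ∧ j ≤ 1 ∧ (k : ℕ) = i + 4 * j := by
      by_cases h1 : (k : ℕ) ≤ 4
      · exact ⟨k, 0, h1, by norm_num, by omega⟩
      · exact ⟨k - 4, 1, by omega, le_rfl, by omega⟩
    refine ⟨mkF (Polynomial.C (Polynomial.C (gT4 i j hi hj))), ?_⟩
    rw [θF_A, αA_ga]
    change vv 2 * (vv 0 ^ i * (vv 0 ^ 4) ^ j) = vv 2 * vv 0 ^ (k : ℕ)
    rw [← pow_mul, ← pow_add, hk]

/-- The value at the vertex of the functions on the cone. -/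
theorem pos_vertex (c : ℂ) (a : AmT) :
    (vX 2).Pos (αA (g1 c) a - algebraMap ℂ K3 (s0 a)) := by
  have h1 : (MvPolynomial.X 2 : Q3) ∣ valT a - MvPolynomial.C ((valT a).coeff 0) := by
    apply X2_dvd
    intro m hm
    by_cases h2 : m 2 = 0
    · left
      have h3 := Am_supp (show valT a ∈ Am from (a : Am).2) hm
      ext k
      fin_cases k
      · change m 0 = 0
        omega
      · change m 1 = 0
        omega
      · exact h2
    · exact Or.inr h2
  obtain ⟨r, hr⟩ := h1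
  have h2 : s0 a = (valT a).coeff 0 := by
    change MvPolynomial.aeval (0 : Fin 3 → ℂ) (valT a) = _
    rw [MvPolynomial.aeval_zero, MvPolynomial.constantCoeff_eq]
    rfl
  have h3 : αA (g1 c) a - algebraMap ℂ K3 (s0 a) =
      MvPolynomial.aeval (g1 c) r * g1 c 2 := by
    have h4 := congrArg (MvPolynomial.aeval (g1 c)) hr
    rw [map_sub, map_mul, MvPolynomial.aeval_X, MvPolynomial.aeval_C] at h4
    rw [h2, mul_comm, ← h4]
    rfl
  rw [h3]
  have hreg : ∀ i, (vX 2).Reg (g1 c i) := by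
    intro i
    fin_cases i
    · exact (valP_divisor (prime_X 2)).1 _ (vv_mem 0)
    · exact (valP_divisor (prime_X 2)).1 _ (sub_mem (pow_mem (vv_mem 0) _) (vv_mem 1))
    · exact v0_reg _ (mul_mem (Subalgebra.algebraMap_mem _ _) z_mem1)
  refine (vX 2).pos_mul_left ?_ ?_
  · have h5 : ∀ q : Q3, MvPolynomial.aeval (g1 c) q ∈ regAlg (vX 2) := by
      intro q
      induction q using MvPolynomial.induction_on with
      | C a => rw [MvPolynomial.aeval_C]; exact Subalgebra.algebraMap_mem _ _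
      | add p q hp hq => rw [map_add]; exact add_mem hp hq
      | mul_X p j hp => rw [map_mul, MvPolynomial.aeval_X]; exact mul_mem hp (hreg j)
    exact h5 r
  · change (vX 2).Pos (algebraMap ℂ K3 c * zv)
    refine (vX 2).pos_mul_left ((vX 2).reg_const _) (Or.inr ?_)
    rw [ord_zv, vX_ord, vX_ord]
    decide

/-- The vertex. -/
noncomputable def P1r : R1 →ₐ[ℂ] ℂ := evalHom (vX 2) R1 v0_const

theorem P1_α {c : ℂ} (a : AmT) (h : αA (g1 c) a ∈ R1) : P1r ⟨αA (g1 c) a, h⟩ = s0 a :=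
  evalHom_eq _ _ _ _ (pos_vertex c a)

/-- The section goes through the vertex. -/
theorem P1_sec (c : ℂ) (x : RF) :
    P1r (πF R1 (g1 c) (vv 2) c (g1_rel c) T_mem1 (g1_mem c) x) = (sF x).eval c := by
  obtain ⟨f, rfl⟩ := mkF_surj x
  have h : (P1r.comp (πF R1 (g1 c) (vv 2) c (g1_rel c) T_mem1 (g1_mem c))).comp mkF =
      (Polynomial.aeval c : Polynomial ℂ →ₐ[ℂ] ℂ).comp s3 := by
    apply Polynomial.algHom_ext'
    · apply Polynomial.algHom_ext'
      · ext a
        have h1 : (πF R1 (g1 c) (vv 2) c (g1_rel c) T_mem1 (g1_mem c)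
            (mkF (Polynomial.C (Polynomial.C a))) : K3) = αA (g1 c) a := by
          rw [πF_coe, θF_A]
        have h2 : αA (g1 c) a ∈ R1 := by
          rw [← h1]
          exact Subtype.coe_prop _
        have h3 : πF R1 (g1 c) (vv 2) c (g1_rel c) T_mem1 (g1_mem c)
            (mkF (Polynomial.C (Polynomial.C a))) = ⟨αA (g1 c) a, h2⟩ := Subtype.ext h1
        change P1r (πF R1 (g1 c) (vv 2) c (g1_rel c) T_mem1 (g1_mem c)
          (mkF (Polynomial.C (Polynomial.C a)))) =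
            Polynomial.aeval c (s3 (Polynomial.C (Polynomial.C a)))
        rw [h3, P1_α]
        simp only [s3, s2, Polynomial.aevalTower_C]
        rw [s1, AlgHom.comp_apply, Algebra.ofId_apply, AlgHom.commutes]
        rfl
      · change P1r (πF R1 (g1 c) (vv 2) c (g1_rel c) T_mem1 (g1_mem c)
          (mkF (Polynomial.C Polynomial.X))) = Polynomial.aeval c (s3 (Polynomial.C Polynomial.X))
        have h3 : πF R1 (g1 c) (vv 2) c (g1_rel c) T_mem1 (g1_mem c)
            (mkF (Polynomial.C Polynomial.X)) = ⟨vv 2, T_mem1⟩ :=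
          Subtype.ext (by rw [πF_coe, θF_T])
        rw [h3]
        simp only [s3, s2, Polynomial.aevalTower_C, Polynomial.aevalTower_X]
        rw [map_zero]
        refine evalHom_eq _ _ _ _ ?_
        rw [map_zero, sub_zero]
        right
        rw [vX_ord]
        decide
    · change P1r (πF R1 (g1 c) (vv 2) c (g1_rel c) T_mem1 (g1_mem c) (mkF Polynomial.X)) =
        Polynomial.aeval c (s3 Polynomial.X)
      have h3 : πF R1 (g1 c) (vv 2) c (g1_rel c) T_mem1 (g1_mem c) (mkF Polynomial.X) =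
          algebraMap ℂ R1 c := by
        apply Subtype.ext
        have h4 := θF_t (g1 c) (vv 2) c (g1_rel c)
        rw [map_sub, AlgHom.commutes, sub_eq_zero] at h4
        exact h4
      rw [h3, AlgHom.commutes]
      simp only [s3, Polynomial.aevalTower_X, Polynomial.aeval_X]
      rfl
  have h2 := DFunLike.congr_fun h f
  change P1r (πF R1 (g1 c) (vv 2) c (g1_rel c) T_mem1 (g1_mem c) (mkF f)) =
    Polynomial.aeval c (s3 f) at h2
  rw [h2, sF_mk, Polynomial.coe_aeval_eq_eval]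

open Classical in
/-- The fibres. -/
noncomputable def XF (c : ℂ) : AffVar K3 := if c = 0 then X0 else X1

theorem exists_π (c : ℂ) : ∃ π : RF →ₐ[ℂ] (XF c).R, Function.Surjective π ∧
    RingHom.ker π = Ideal.span {tF - algebraMap ℂ RF c} ∧
    (c ≠ 0 → ∃ P : Pt (XF c), (∀ a, P (π a) = (sF a).eval c) ∧ ∀ B, ¬ IsKltAt B P) := by
  by_cases hc : c = 0
  · have h : XF c = X0 := if_pos hc
    rw [h]
    subst hc
    exact ⟨πF R0 g0 (vv 1) 0 g0_rel T_mem0 g0_mem, surj0, πF_ker _ _ _ ker0,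
      fun h => absurd rfl h⟩
  · have h : XF c = X1 := if_neg hc
    rw [h]
    exact ⟨πF R1 (g1 c) (vv 2) c (g1_rel c) T_mem1 (g1_mem c), surj1 hc,
      πF_ker _ _ _ (ker1 hc), fun _ => ⟨P1, P1_sec c, not_klt⟩⟩

/-- The family. -/
noncomputable def family : FlatFamily K3 where
  A := RF
  ring := inferInstance
  alg := inferInstance
  fg := fgF
  t := tF
  flat := flatF
  X := XF
  π := fun c => (exists_π c).choose
  surj := fun c => (exists_π c).choose_spec.1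
  ker := fun c => (exists_π c).choose_spec.2.1

/-- The section of the family. -/
noncomputable def sect : Sec family where
  σ := sF
  map_t := sF_t

theorem XF_zero : XF 0 = X0 := if_pos rfl

theorem XF_ne {c : ℂ} (hc : c ≠ 0) : XF c = X1 := if_neg hc

theorem normal_XF (c : ℂ) : IsNormal (XF c) := by
  by_cases hc : c = 0
  · rw [hc, XF_zero]
    exact R0_normal
  · rw [XF_ne hc]
    exact R1_normal

theorem main : ∃ (F : FlatFamily K3) (s : Sec F), (∀ c, IsNormal (F.X c)) ∧ IsKltType (F.X 0) ∧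
    ∀ c : ℂ, c ≠ 0 → ¬ IsKltType (F.X c) ∧
      ∃ P : Pt (F.X c), s.At c P ∧ ∀ B : EffDiv (F.X c), ¬ IsKltAt B P := by
  refine ⟨family, sect, normal_XF, ?_, fun c hc => ⟨?_, ?_⟩⟩
  · change IsKltType (XF 0)
    rw [XF_zero]
    exact kltType0
  · change ¬ IsKltType (XF c)
    rw [XF_ne hc]
    exact not_kltType
  · obtain ⟨P, h1, h2⟩ := (exists_π c).choose_spec.2.2 hc
    exact ⟨P, h1, h2⟩

end Pool.Agent.H436R3.KT
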